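import Pool.Agent.X120.NF.Lin

/-!
# Abel–Jacobi images of cycles in the fibres over `b^(-t)`
-/

set_option autoImplicit false

open Matrix

namespace Pool.Agent.X120.NF

open Pool.Agent.X120.BM

/-- `H p = H^{p, w-p}`, `p ≤ w`, are the parts of a Hodge structure of weight `w` on `ℚ^n` with the first bilinear relation for the nondegenerate
bilinear form `A`, for example a Hodge structure which is polarised by `A`. -/
structure IsPolarized {n : ℕ} (w : ℕ) (A : Matrix (Fin n) (Fin n) ℚ) (H : ℕ → Submodule ℂ (Fin n → ℂ)) : Prop where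
  nondeg : A.det ≠ 0
  span : (⨆ p : {p : ℕ // p ≤ w}, H p) = ⊤
  conj : ∀ p ≤ w, ∀ v ∈ H p, (fun i => star (v i)) ∈ H (w - p)
  orth : ∀ p ≤ w, ∀ r ≤ w, p + r ≠ w → ∀ v ∈ H p, ∀ u ∈ H r, dotProduct v (Matrix.mulVec (toC A) u) = 0

/-- the Hodge filtration `F^p` -/
def filtration {n : ℕ} (w : ℕ) (H : ℕ → Submodule ℂ (Fin n → ℂ)) (p : ℕ) : Submodule ℂ (Fin n → ℂ) :=
  ⨆ r : {r : ℕ // p ≤ r ∧ r ≤ w}, H r

section
variable {n n₀ : ℕ}

/-- the Hodge filtration `F^m` of the tensor product of the Hodge structures `H` and `H₀` (the elements are matrices, `f ⊗ g = f gᵀ`) -/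
noncomputable def tensorFiltration (w w₀ : ℕ) (H : ℕ → Submodule ℂ (Fin n → ℂ)) (H₀ : ℕ → Submodule ℂ (Fin n₀ → ℂ)) (m : ℕ) :
    Submodule ℂ (Matrix (Fin n) (Fin n₀) ℂ) :=
  Submodule.span ℂ {M | ∃ p ≤ w, ∃ p₀ ≤ w₀, m ≤ p + p₀ ∧ ∃ f ∈ H p, ∃ g ∈ H₀ p₀, M = Matrix.vecMulVec f g}

/-- the rational elements of the tensor product -/
noncomputable def rationalPart (n n₀ : ℕ) : Submodule ℚ (Matrix (Fin n) (Fin n₀) ℂ) :=
  Submodule.span ℚ (Set.range fun M : Matrix (Fin n) (Fin n₀) ℚ => M.map fun x : ℚ => (x : ℂ))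

/-- The intermediate Jacobian of the tensor product, tensored with `ℚ`: `V_ℂ / (F^m V_ℂ + V_ℚ)` -/
noncomputable abbrev Jacobian (w w₀ : ℕ) (H : ℕ → Submodule ℂ (Fin n → ℂ)) (H₀ : ℕ → Submodule ℂ (Fin n₀ → ℂ)) (m : ℕ) : Type :=
  Matrix (Fin n) (Fin n₀) ℂ ⧸ ((tensorFiltration w w₀ H H₀ m).restrictScalars ℚ ⊔ rationalPart n n₀)

/-- the pairing of `a` with `ω ⊗ η` -/
noncomputable def pair (A : Matrix (Fin n) (Fin n) ℚ) (A₀ : Matrix (Fin n₀) (Fin n₀) ℚ) (ω : Fin n → ℂ) (η : Fin n₀ → ℂ)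
    (a : Matrix (Fin n) (Fin n₀) ℂ) : ℂ :=
  dotProduct (Matrix.mulVec (toC A) ω) (Matrix.mulVec a (Matrix.mulVec (toC A₀) η))

theorem pair_add (A : Matrix (Fin n) (Fin n) ℚ) (A₀ : Matrix (Fin n₀) (Fin n₀) ℚ) (ω : Fin n → ℂ) (η : Fin n₀ → ℂ)
    (a a' : Matrix (Fin n) (Fin n₀) ℂ) : pair A A₀ ω η (a + a') = pair A A₀ ω η a + pair A A₀ ω η a' := by
  unfold pair
  rw [Matrix.add_mulVec, dotProduct_add]

theorem pair_smul (A : Matrix (Fin n) (Fin n) ℚ) (A₀ : Matrix (Fin n₀) (Fin n₀) ℚ) (ω : Fin n → ℂ) (η : Fin n₀ → ℂ) (c : ℂ)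
    (a : Matrix (Fin n) (Fin n₀) ℂ) : pair A A₀ ω η (c • a) = c * pair A A₀ ω η a := by
  unfold pair
  rw [Matrix.smul_mulVec, dotProduct_smul, smul_eq_mul]

theorem pair_sum (A : Matrix (Fin n) (Fin n) ℚ) (A₀ : Matrix (Fin n₀) (Fin n₀) ℚ) (ω : Fin n → ℂ) (η : Fin n₀ → ℂ) {ι : Type}
    (s : Finset ι) (a : ι → Matrix (Fin n) (Fin n₀) ℂ) : pair A A₀ ω η (∑ i ∈ s, a i) = ∑ i ∈ s, pair A A₀ ω η (a i) := by
  classical
  induction s using Finset.induction_on with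
  | empty =>
    rw [Finset.sum_empty, Finset.sum_empty]
    unfold pair
    rw [Matrix.zero_mulVec, dotProduct_zero]
  | insert i s hi ih => rw [Finset.sum_insert hi, Finset.sum_insert hi, pair_add, ih]

/-- `F^m` is orthogonal to `ω ⊗ η` -/
theorem pair_fil {w w₀ p₁ p₂ : ℕ} (hm : w + w₀ < 2 * (p₁ + p₂)) {A : Matrix (Fin n) (Fin n) ℚ} {A₀ : Matrix (Fin n₀) (Fin n₀) ℚ}
    {H : ℕ → Submodule ℂ (Fin n → ℂ)} {H₀ : ℕ → Submodule ℂ (Fin n₀ → ℂ)} (hH : IsPolarized w A H) (hH₀ : IsPolarized w₀ A₀ H₀)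
    {ω : Fin n → ℂ} (hω : ω ∈ filtration w H p₁) {η : Fin n₀ → ℂ} (hη : η ∈ filtration w₀ H₀ p₂)
    {f : Matrix (Fin n) (Fin n₀) ℂ} (hf : f ∈ tensorFiltration w w₀ H H₀ (p₁ + p₂)) : pair A A₀ ω η f = 0 := by
  have key : ∀ {m w p₁ : ℕ} {A : Matrix (Fin m) (Fin m) ℚ} {H : ℕ → Submodule ℂ (Fin m → ℂ)} (_ : IsPolarized w A H)
      {ω : Fin m → ℂ} (_ : ω ∈ filtration w H p₁) {p : ℕ} (_ : p ≤ w) (_ : w < p + p₁) {v : Fin m → ℂ} (_ : v ∈ H p),
      dotProduct v (Matrix.mulVec (toC A) ω) = 0 := by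
    intro m w p₁ A H hH ω hω p hp hlt v hv
    unfold filtration at hω
    induction hω using Submodule.iSup_induction' with
    | mem r x hx => exact hH.orth p hp r r.2.2 (by have := r.2.1; omega) v hv x hx
    | zero => rw [Matrix.mulVec_zero, dotProduct_zero]
    | add x y _ _ hx hy => rw [Matrix.mulVec_add, dotProduct_add, hx, hy, add_zero]
  unfold tensorFiltration at hf
  induction hf using Submodule.span_induction with
  | mem x hx =>
    obtain ⟨p, hp, p₀, hp₀, hpp, f, hf, g, hg, rfl⟩ := hx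
    have h1 : pair A A₀ ω η (Matrix.vecMulVec f g) =
        dotProduct f (Matrix.mulVec (toC A) ω) * dotProduct g (Matrix.mulVec (toC A₀) η) := by
      unfold pair
      rw [Matrix.vecMulVec_mulVec]
      simp only [dotProduct, MulOpposite.smul_eq_mul_unop, MulOpposite.unop_op, Pi.smul_apply]
      rw [Finset.sum_mul]
      exact Finset.sum_congr rfl fun i _ => by ring
    rw [h1]
    by_cases h2 : w < p + p₁
    · rw [key hH hω hp h2 hf, zero_mul]
    · rw [key hH₀ hη hp₀ (by omega) hg, mul_zero]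
  | zero =>
    unfold pair
    rw [Matrix.zero_mulVec, dotProduct_zero]
  | add x y _ _ hx hy => rw [pair_add, hx, hy, add_zero]
  | smul c x _ hx => rw [pair_smul, hx, mul_zero]

theorem mulVec_mem {a b : ℕ} {V₀ : Submodule ℚ ℂ} {N : Matrix (Fin a) (Fin b) ℚ} {v : Fin b → ℂ} (hv : ∀ c, v c ∈ V₀) (i : Fin a) :
    ((N.map fun x : ℚ => (x : ℂ)) *ᵥ v) i ∈ V₀ := by
  show ∑ c, ((N i c : ℚ) : ℂ) * v c ∈ V₀
  refine Submodule.sum_mem _ fun c _ => ?_
  rw [← Rat.smul_def]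
  exact Submodule.smul_mem _ _ (hv c)

/-- the pairing with rational elements -/
theorem pair_rat {A : Matrix (Fin n) (Fin n) ℚ} {A₀ : Matrix (Fin n₀) (Fin n₀) ℚ} (ω : Fin n → ℂ) (η : Fin n₀ → ℂ)
    {V₀ : Submodule ℚ ℂ} (hV : ∀ c, η c ∈ V₀) {M : Matrix (Fin n) (Fin n₀) ℂ} (hM : M ∈ rationalPart n n₀) :
    ∃ x : Fin n → ℂ, (∀ a, x a ∈ V₀) ∧ pair A A₀ ω η M = ∑ a, x a * ω a := by
  unfold rationalPart at hM
  induction hM using Submodule.span_induction with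
  | mem x hx =>
    obtain ⟨M, rfl⟩ := hx
    refine ⟨(A.transpose.map fun x : ℚ => (x : ℂ)) *ᵥ ((M.map fun x : ℚ => (x : ℂ)) *ᵥ ((A₀.map fun x : ℚ => (x : ℂ)) *ᵥ η)),
      mulVec_mem (mulVec_mem (mulVec_mem hV)), ?_⟩
    show dotProduct (Matrix.mulVec (toC A) ω) (Matrix.mulVec (M.map fun x : ℚ => (x : ℂ)) (Matrix.mulVec (toC A₀) η)) = dotProduct _ ω
    rw [dotProduct_comm, Matrix.dotProduct_mulVec, ← Matrix.mulVec_transpose]
    rfl
  | zero =>
    refine ⟨0, fun a => Submodule.zero_mem _, ?_⟩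
    unfold pair
    rw [Matrix.zero_mulVec, dotProduct_zero]
    simp
  | add x y _ _ hx hy =>
    obtain ⟨u, hu, h1⟩ := hx
    obtain ⟨v, hv, h2⟩ := hy
    refine ⟨u + v, fun a => Submodule.add_mem _ (hu a) (hv a), ?_⟩
    rw [pair_add, h1, h2, ← Finset.sum_add_distrib]
    exact Finset.sum_congr rfl fun a _ => (add_mul _ _ _).symm
  | smul q x _ hx =>
    obtain ⟨u, hu, h1⟩ := hx
    refine ⟨q • u, fun a => Submodule.smul_mem _ _ (hu a), ?_⟩
    have h2 : q • x = ((q : ℚ) : ℂ) • x := by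
      ext i j
      rw [Matrix.smul_apply, Matrix.smul_apply, Rat.smul_def, smul_eq_mul]
    rw [h2, pair_smul, h1, Finset.mul_sum]
    refine Finset.sum_congr rfl fun a _ => ?_
    rw [Pi.smul_apply, Rat.smul_def]
    ring

/-- the vector of the periods -/
noncomputable def periods {r : ℕ} (v : Fin (r + n) → ℂ) : Fin n → ℂ := fun a => v (Fin.natAdd r a)

/-- The classes `a_j` have the pairings `v_j`, `j < r`, with `ω ⊗ η`, where the coordinates of `ω` are the `v_(r+a)`. -/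
def IsRepresented {r : ℕ} (A : Matrix (Fin n) (Fin n) ℚ) (A₀ : Matrix (Fin n₀) (Fin n₀) ℚ) (v : Fin (r + n) → ℂ) (η : Fin n₀ → ℂ)
    (a : Fin r → Matrix (Fin n) (Fin n₀) ℂ) : Prop :=
  ∀ j, pair A A₀ (periods v) η (a j) = v (Fin.castAdd n j)

/-- **Linear independence in the intermediate Jacobian.** -/
theorem jac_indep {r w w₀ p₁ p₂ : ℕ} (hm : w + w₀ < 2 * (p₁ + p₂)) {A : Matrix (Fin n) (Fin n) ℚ} {A₀ : Matrix (Fin n₀) (Fin n₀) ℚ}
    {H : ℕ → Submodule ℂ (Fin n → ℂ)} {H₀ : ℕ → Submodule ℂ (Fin n₀ → ℂ)} (hH : IsPolarized w A H) (hH₀ : IsPolarized w₀ A₀ H₀)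
    {v : Fin (r + n) → ℂ} (hω : periods v ∈ filtration w H p₁) {η : Fin n₀ → ℂ} (hη : η ∈ filtration w₀ H₀ p₂)
    {V₀ : Submodule ℚ ℂ} (h1 : (1 : ℂ) ∈ V₀) (hV : ∀ c, η c ∈ V₀)
    (hgood : ∀ q : Fin (r + n) → ℂ, (∀ j, q j ∈ V₀) → ∑ j, q j * v j = 0 → q = 0)
    {a : Fin r → Matrix (Fin n) (Fin n₀) ℂ} (ha : IsRepresented A A₀ v η a) :
    LinearIndependent ℚ fun j => (Submodule.Quotient.mk (a j) : Jacobian w w₀ H H₀ (p₁ + p₂)) := by
  rw [Fintype.linearIndependent_iff]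
  intro c hc
  have h2 : ∑ j, c j • a j ∈ ((tensorFiltration w w₀ H H₀ (p₁ + p₂)).restrictScalars ℚ ⊔ rationalPart n n₀) := by
    rw [← Submodule.Quotient.mk_eq_zero, ← hc]
    rw [← Submodule.mkQ_apply, map_sum]
    rfl
  obtain ⟨f, hf, M, hM, hfM⟩ := Submodule.mem_sup.1 h2
  obtain ⟨x, hx, hxM⟩ := pair_rat (A := A) (A₀ := A₀) (periods v) η hV hM
  have h3 : pair A A₀ (periods v) η (∑ j, c j • a j) = ∑ j, (c j : ℂ) * v (Fin.castAdd n j) := by
    rw [pair_sum]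
    refine Finset.sum_congr rfl fun j _ => ?_
    have h4 : c j • a j = ((c j : ℚ) : ℂ) • a j := by
      ext i l
      rw [Matrix.smul_apply, Matrix.smul_apply, Rat.smul_def, smul_eq_mul]
    rw [h4, pair_smul, ha j]
  rw [← hfM, pair_add, pair_fil hm hH hH₀ hω hη hf, zero_add, hxM] at h3
  have h5 := hgood (Fin.addCases (fun j => ((c j : ℚ) : ℂ)) fun i => -x i) (fun j => by
    refine Fin.addCases (fun j => ?_) (fun i => ?_) j
    · rw [Fin.addCases_left]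
      have := V₀.smul_mem (c j) h1
      rwa [Rat.smul_def, mul_one] at this
    · rw [Fin.addCases_right]
      exact V₀.neg_mem (hx i)) (by
    rw [Fin.sum_univ_add]
    simp only [Fin.addCases_left, Fin.addCases_right]
    rw [← h3, ← Finset.sum_add_distrib]
    refine Finset.sum_eq_zero fun i _ => ?_
    unfold periods
    ring)
  intro j
  have h6 := congrFun h5 (Fin.castAdd n j)
  rw [Fin.addCases_left, Pi.zero_apply] at h6
  exact_mod_cast h6

/-- If the images of `z_1, …, z_r` are linearly independent, the map is injective on their span and they are linearly independent. -/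
theorem inj_of_indep {r : ℕ} {CH J : Type} [AddCommGroup CH] [Module ℚ CH] [AddCommGroup J] [Module ℚ J] (f : CH →ₗ[ℚ] J)
    {z : Fin r → CH} (h : LinearIndependent ℚ fun j => f (z j)) :
    LinearIndependent ℚ z ∧ ∀ x ∈ Submodule.span ℚ (Set.range z), f x = 0 → x = 0 := by
  refine ⟨LinearIndependent.of_comp f h, fun x hx hfx => ?_⟩
  obtain ⟨c, rfl⟩ := (Submodule.mem_span_range_iff_exists_fun ℚ).1 hx
  rw [map_sum] at hfx
  have h1 := Fintype.linearIndependent_iff.1 h c (by rw [← hfx]; exact Finset.sum_congr rfl fun j _ => (map_smul f _ _).symm)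
  exact Finset.sum_eq_zero fun j _ => by rw [h1 j, zero_smul]

end

end Pool.Agent.X120.NF
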