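import Pool.Agent.X120.NF.Mix

/-!
# Hodge classes in tensor products of mixed Hodge structures
-/

set_option autoImplicit false

open Matrix

namespace Pool.Agent.X120.NF

open Pool.Agent.X120.BM

section
variable {n n₀ : ℕ}

/-- a rational vector as a complex vector -/
def castV {d : ℕ} (x : Fin d → ℚ) : Fin d → ℂ := fun i => (x i : ℂ)

/-- a rational matrix as a complex matrix -/
def castM (M : Matrix (Fin n) (Fin n₀) ℚ) : Matrix (Fin n) (Fin n₀) ℂ := M.map fun x : ℚ => (x : ℂ)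

theorem hodge_kill {Fil : ℤ → Submodule ℂ (Fin n → ℂ)} {Fil₀ : ℤ → Submodule ℂ (Fin n₀ → ℂ)} (hF : Antitone Fil)
    (hF₀ : Antitone Fil₀) {m q₁ q₂ : ℤ} (hm : q₁ + q₂ ≤ m + 1)
    {v : Fin n → ℂ} (hω : ∀ f ∈ Fil q₁, dotProduct f v = 0) {η : Fin n₀ → ℂ} (hη : ∀ g ∈ Fil₀ q₂, dotProduct g η = 0)
    {V₀ : Submodule ℚ ℂ} (hV : ∀ c, η c ∈ V₀)
    (hgood : ∀ q : Fin n → ℂ, (∀ j, q j ∈ V₀) → ∑ j, q j * v j = 0 → q = 0)
    {M : Matrix (Fin n) (Fin n₀) ℚ} (hM : castM M ∈ mixedFiltration Fil Fil₀ m) : castM M *ᵥ η = 0 := by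
  have h1 := dualPair_fil hF hF₀ hm hω hη hM
  refine hgood _ (mulVec_mem hV) ?_
  rw [← h1]
  unfold dualPair
  rw [dotProduct_comm]
  rfl

/-- the annihilator of a subspace -/
def annihilator {d : ℕ} (K : Submodule ℂ (Fin d → ℂ)) : Submodule ℂ (Fin d → ℂ) where
  carrier := {η | ∀ g ∈ K, dotProduct g η = 0}
  add_mem' := fun h h' g hg => by rw [dotProduct_add, h g hg, h' g hg, add_zero]
  zero_mem' := fun g _ => dotProduct_zero g
  smul_mem' := fun c _ h g hg => by rw [dotProduct_smul, h g hg, smul_zero]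

theorem mem_of_annihilator {d : ℕ} {K : Submodule ℂ (Fin d → ℂ)} {x : Fin d → ℂ} (h : ∀ η ∈ annihilator K, dotProduct x η = 0) :
    x ∈ K := by
  by_contra hx
  obtain ⟨f, hf, hK⟩ := Submodule.exists_le_ker_of_notMem hx
  have h1 : ∀ y : Fin d → ℂ, dotProduct y (fun i => f (Pi.single i 1)) = f y := by
    intro y
    conv_rhs => rw [← Finset.univ_sum_single y, map_sum]
    refine Finset.sum_congr rfl fun i _ => ?_
    have h2 : (Pi.single i (y i) : Fin d → ℂ) = y i • Pi.single i 1 := by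
      rw [← Pi.single_smul, smul_eq_mul, mul_one]
    rw [h2, map_smul, smul_eq_mul]
  apply hf
  rw [← h1]
  exact h _ fun g hg => by
    rw [h1]
    exact LinearMap.mem_ker.1 (hK hg)

/-- the space of the coordinates -/
theorem exists_coords {d : ℕ} (K : Submodule ℂ (Fin d → ℂ)) : ∃ (V₀ : Submodule ℚ ℂ) (S : Set (Fin d → ℂ)), Module.Finite ℚ V₀ ∧
    Module.finrank ℚ V₀ ≤ d * d ∧ (∀ η ∈ S, η ∈ K ∧ ∀ c, η c ∈ V₀) ∧ K ≤ Submodule.span ℂ S := by
  set B := Module.finBasis ℂ K with hB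
  have hd : Module.finrank ℂ K ≤ d := by
    refine (Submodule.finrank_le _).trans ?_
    rw [Module.finrank_fin_fun]
  refine ⟨Submodule.span ℚ (Set.range fun o : Fin (Module.finrank ℂ K) × Fin d => (B o.1 : Fin d → ℂ) o.2),
    Set.range fun i => (B i : Fin d → ℂ), Module.Finite.span_of_finite ℚ (Set.finite_range _), ?_, ?_, ?_⟩
  · refine (finrank_range_le_card _).trans ?_
    rw [Fintype.card_prod, Fintype.card_fin, Fintype.card_fin]
    exact Nat.mul_le_mul_right d hd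
  · rintro _ ⟨i, rfl⟩
    exact ⟨(B i).2, fun c => Submodule.subset_span ⟨(i, c), rfl⟩⟩
  · intro u hu
    have h1 : (⟨u, hu⟩ : K) ∈ Submodule.span ℂ (Set.range B) := by rw [B.span_eq]; exact Submodule.mem_top
    have h2 := Submodule.mem_map_of_mem (f := K.subtype) h1
    rw [Submodule.map_span, ← Set.range_comp] at h2
    exact h2

/-- **No Hodge classes.** -/
theorem hodge_zero {Fil : ℤ → Submodule ℂ (Fin n → ℂ)} {Fil₀ : ℤ → Submodule ℂ (Fin n₀ → ℂ)} (hF : Antitone Fil)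
    (hF₀ : Antitone Fil₀) {m q₁ q₂ : ℤ} (hm : q₁ + q₂ ≤ m + 1)
    {v : Fin n → ℂ} (hω : ∀ f ∈ Fil q₁, dotProduct f v = 0) {V₀ : Submodule ℚ ℂ} {S : Set (Fin n₀ → ℂ)}
    (hS : ∀ η ∈ S, η ∈ annihilator (Fil₀ q₂) ∧ ∀ c, η c ∈ V₀) (hSp : annihilator (Fil₀ q₂) ≤ Submodule.span ℂ S)
    (hno : ∀ x : Fin n₀ → ℚ, castV x ∈ Fil₀ q₂ → x = 0)
    (hgood : ∀ q : Fin n → ℂ, (∀ j, q j ∈ V₀) → ∑ j, q j * v j = 0 → q = 0)
    {M : Matrix (Fin n) (Fin n₀) ℚ} (hM : castM M ∈ mixedFiltration Fil Fil₀ m) : M = 0 := by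
  have h1 : ∀ η ∈ annihilator (Fil₀ q₂), castM M *ᵥ η = 0 := by
    intro η hη
    have h2 := hSp hη
    induction h2 using Submodule.span_induction with
    | mem x hx => exact hodge_kill hF hF₀ hm hω (hS x hx).1 (hS x hx).2 hgood hM
    | zero => rw [Matrix.mulVec_zero]
    | add x y hx' hy' hx hy =>
      rw [Matrix.mulVec_add, hx ((Submodule.span_le.2 fun z hz => (hS z hz).1) hx'),
        hy ((Submodule.span_le.2 fun z hz => (hS z hz).1) hy'), add_zero]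
    | smul a x hx' hx => rw [Matrix.mulVec_smul, hx ((Submodule.span_le.2 fun z hz => (hS z hz).1) hx'), smul_zero]
  funext i
  refine hno _ (mem_of_annihilator fun η hη => ?_)
  exact congrFun (h1 η hη) i

end

end Pool.Agent.X120.NF
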