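import Pool.Agent.X120.BM.Defs
import Pool.Agent.X120.HG.Ann

/-!
# Linear relations between the values of G-functions at the points `b^(-t)`
-/

set_option autoImplicit false

open PowerSeries Matrix Filter

namespace Pool.Agent.X120.NF

open Pool.Agent.X120.BM Pool.Agent.X120.GS Pool.Agent.Y120.R

/-- the values of the polynomials `P_j` in the G-functions at `x = 1 / s` -/
noncomputable def valP {r m : ℕ} (h : Fin r → PowerSeries ℚ) (P : Fin m → MvPolynomial (Fin r) ℂ) (s : ℝ) (j : Fin m) : ℂ :=
  MvPolynomial.aeval (fun l => ((∑' m : ℕ, ((coeff m (h l) : ℚ) : ℝ) * (1 / s) ^ m : ℝ) : ℂ)) (P j)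

/-- The functions `L(log (1 / x)) P(x)`: the entries of the vector `P(x)` are polynomials of degree at most `e` in the G-functions, which together with `1` are linearly independent over
`ℂ(x)`, and the entries of the invertible matrix `L(u)` are polynomials of degree at most `e` in `u` (`L = 1` if there are no logarithms). -/
structure Functions (G : GSystem) (m e : ℕ) where
  /-- the polynomials in the G-functions -/
  P : Fin m → MvPolynomial (Fin G.r) ℂ
  degP : ∀ j, (P j).totalDegree ≤ e
  /-- the factor with the logarithms -/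
  L : Matrix (Fin m) (Fin m) (Polynomial ℂ)
  degL : ∀ a b, (L a b).natDegree ≤ e
  unitL : ∀ u : ℂ, IsUnit (L.map (Polynomial.eval u))
  /-- linear independence over `ℂ(x)` -/
  indep : ∀ (R₀ : Polynomial ℂ) (R : Fin m → Polynomial ℂ),
    (∀ᶠ s : ℝ in atTop, R₀.eval (1 / (s : ℂ)) + ∑ j, (R j).eval (1 / (s : ℂ)) * valP G.h P s j = 0) → R₀ = 0 ∧ ∀ j, R j = 0

/-- the values of the functions at `x = b^(-t)` -/
noncomputable def Functions.val {G : GSystem} {m e : ℕ} (F : Functions G m e) (b t : ℕ) : Fin m → ℂ :=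
  F.L.map (Polynomial.eval ((t : ℂ) * ((Real.log b : ℝ) : ℂ))) *ᵥ valP G.h F.P ((b : ℝ) ^ t)

section aux

/-- polynomials of degree at most one -/
theorem deg_one {σ A : Type} [CommRing A] [Fintype σ] [DecidableEq σ] {R : MvPolynomial σ A} (h : R.totalDegree ≤ 1) :
    R = MvPolynomial.C (R.coeff 0) + ∑ v, MvPolynomial.C (R.coeff (Finsupp.single v 1)) * MvPolynomial.X v := by
  ext s
  rw [MvPolynomial.coeff_add, MvPolynomial.coeff_C, MvPolynomial.coeff_sum]
  simp only [MvPolynomial.coeff_C_mul, MvPolynomial.coeff_X]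
  by_cases h0 : s = 0
  · subst h0
    rw [if_pos rfl, Finset.sum_eq_zero, add_zero]
    intro v _
    rw [if_neg, mul_zero]
    intro h1
    have := congrArg (fun f : σ →₀ ℕ => f v) h1
    simp at this
  · rw [if_neg (Ne.symm h0), zero_add]
    by_cases h1 : ∃ v, s = Finsupp.single v 1
    · obtain ⟨v, rfl⟩ := h1
      rw [Finset.sum_eq_single v]
      · rw [if_pos rfl, mul_one]
      · intro w _ hw
        rw [if_neg, mul_zero]
        intro h2
        exact hw ((Finsupp.single_left_inj one_ne_zero).1 h2)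
      · intro h2
        exact absurd (Finset.mem_univ v) h2
    · rw [Finset.sum_eq_zero]
      · by_contra hne
        have h2 : s.degree ≤ 1 := (MvPolynomial.le_totalDegree (MvPolynomial.mem_support_iff.2 hne)).trans h
        obtain ⟨v, hv⟩ : ∃ v, s v ≠ 0 := by
          by_contra h3
          push Not at h3
          exact h0 (Finsupp.ext h3)
        apply h1
        refine ⟨v, Finsupp.ext fun w => ?_⟩
        have h3 : s.degree = ∑ w, s w := Finsupp.degree_eq_sum s
        rw [h3] at h2
        by_cases hw : w = v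
        · subst hw
          rw [Finsupp.single_eq_same]
          have h4 := Finset.single_le_sum (f := fun w => s w) (fun _ _ => Nat.zero_le _) (Finset.mem_univ w)
          have h5 : s w ≤ 1 := h4.trans h2
          omega
        · rw [Finsupp.single_eq_of_ne hw]
          have h4 : s w + s v ≤ ∑ w, s w := by
            have h5 := Finset.add_le_sum (f := fun w => s w) (fun _ _ => Nat.zero_le _) (Finset.mem_univ w) (Finset.mem_univ v) hw
            exact h5
          omega
      · intro v _
        rw [if_neg, mul_zero]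
        intro h2
        exact h1 ⟨v, h2.symm⟩

/-- polynomials in one variable -/
theorem toP_eval (p : MvPolynomial (Fin 1) ℂ) (y : ℂ) :
    MvPolynomial.eval₂Hom (RingHom.id ℂ) (fun _ => y) p = (MvPolynomial.uniqueAlgEquiv ℂ (Fin 1) p).eval y := by
  induction p using MvPolynomial.induction_on with
  | C a =>
    have h1 : MvPolynomial.uniqueAlgEquiv ℂ (Fin 1) (MvPolynomial.C a) = Polynomial.C a := by
      have := (MvPolynomial.uniqueAlgEquiv ℂ (Fin 1)).commutes a
      exact this
    rw [h1]
    simp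
  | add p q hp hq => rw [map_add, map_add, Polynomial.eval_add, hp, hq]
  | mul_X p i hp =>
    have h1 : MvPolynomial.uniqueAlgEquiv ℂ (Fin 1) (MvPolynomial.X i) = Polynomial.X := by
      rw [MvPolynomial.X, MvPolynomial.uniqueAlgEquiv_monomial]
      have hi : i = default := Subsingleton.elim _ _
      rw [hi, Finsupp.single_eq_same]
      rfl
    rw [map_mul, map_mul, Polynomial.eval_mul, hp, h1]
    simp

theorem pv_eq {r m : ℕ} (h : Fin r → PowerSeries ℚ) (P : Fin m → MvPolynomial (Fin r) ℂ) (s : Fin 1 → ℝ)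
    (v : Σ _ : Fin 1, Fin m) : pv (k := 1) (r := fun _ => r) (n := fun _ => m) (so fun _ => P) (fun _ => h) s v =
      valP h P (s 0) v.2 := by
  obtain ⟨i, j⟩ := v
  have hi : i = 0 := Subsingleton.elim _ _
  subst hi
  unfold pv pf so valP
  rw [MvPolynomial.aeval_rename]
  show MvPolynomial.aeval _ (MvPolynomial.rename some (P j)) = _
  rw [MvPolynomial.aeval_rename]
  rfl

end aux

/-- **Linear relations with coefficients in a space of finite dimension at the points `b^(-t)`.** -/
theorem lin_count (G : GSystem) (m e D b : ℕ) (hb : 2 ≤ b) :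
    ∃ C : ℝ, 0 ≤ C ∧ ∀ (F : Functions G m e) (V₀ : Submodule ℚ ℂ) [Module.Finite ℚ V₀], Module.finrank ℚ V₀ ≤ D →
      ∀ N : ℕ, 2 ≤ N → (({t : ℕ | 1 ≤ t ∧ t ≤ N ∧ ∃ q : Fin m → ℂ, q ≠ 0 ∧ (∀ j, q j ∈ V₀) ∧ ∑ j, q j * F.val b t j = 0}.ncard : ℕ) : ℝ) ≤
        C * Real.log N := by
  classical
  obtain ⟨C, hC, hcount⟩ := relXS (k := 1) (r := fun _ => G.r) (n := fun _ => m) (h := fun _ => G.h) 1 e
    (D * (m * m * (e + 1))) (b := fun _ => b) (fun _ => hb) (fun _ => fam G.isG hb _)
  refine ⟨C, hC, ?_⟩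
  intro F V₀ _ hV₀ N hN
  set S := {t : ℕ | 1 ≤ t ∧ t ≤ N ∧ ∃ q : Fin m → ℂ, q ≠ 0 ∧ (∀ j, q j ∈ V₀) ∧ ∑ j, q j * F.val b t j = 0} with hS
  have hfin : S.Finite := (Set.finite_Iic N).subset fun t ht => ht.2.1
  -- the space of the coefficients
  set lb : ℂ := ((Real.log b : ℝ) : ℂ) with hlb
  set W : Submodule ℚ ℂ := Submodule.span ℚ (Set.range fun x : Fin m × Fin m × Fin (e + 1) => (F.L x.1 x.2.1).coeff x.2.2 * lb ^ (x.2.2 : ℕ)) with hW
  have hWf : Module.Finite ℚ W := Module.Finite.span_of_finite ℚ (Set.finite_range _)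
  have hWr : Module.finrank ℚ W ≤ m * m * (e + 1) := by
    refine (finrank_range_le_card _).trans ?_
    rw [Fintype.card_prod, Fintype.card_prod, Fintype.card_fin, Fintype.card_fin]
    exact le_of_eq (by ring)
  obtain ⟨hVf, hVr⟩ := Pool.Agent.X120.HG.finrank_mul_le' V₀ W
  have hVD : Module.finrank ℚ (V₀ * W : Submodule ℚ ℂ) ≤ D * (m * m * (e + 1)) := hVr.trans (Nat.mul_le_mul hV₀ hWr)
  have h1 := hcount (fun _ => F.P) (fun _ => F.degP) (V₀ * W) hVD N hN ((hfin.toFinset).image fun t => fun _ : Fin 1 => t) (by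
    intro t' ht'
    obtain ⟨t, ht, rfl⟩ := Finset.mem_image.1 ht'
    rw [Set.Finite.mem_toFinset] at ht
    obtain ⟨ht1, htN, q, hq0, hqV, hq⟩ := ht
    refine ⟨fun _ => ⟨ht1, htN⟩, ?_⟩
    set u : ℂ := (t : ℂ) * lb with hu
    set Lu := F.L.map (Polynomial.eval u) with hLu
    set q' : Fin m → ℂ := q ᵥ* Lu with hq'
    have hq'0 : q' ≠ 0 := by
      intro h0
      apply hq0
      obtain ⟨U, hU⟩ := F.unitL u
      have h2 := congrArg (fun x => x ᵥ* ((U⁻¹ : (Matrix (Fin m) (Fin m) ℂ)ˣ) : Matrix (Fin m) (Fin m) ℂ)) h0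
      simp only [hq', hLu] at h2
      rw [← hU, Matrix.vecMul_vecMul, Units.mul_inv, Matrix.vecMul_one, Matrix.zero_vecMul] at h2
      exact h2
    have hq'V : ∀ l, q' l ∈ (V₀ * W : Submodule ℚ ℂ) := by
      intro l
      show ∑ j, q j * (F.L j l).eval u ∈ _
      refine Submodule.sum_mem _ fun j _ => ?_
      have h2 : (F.L j l).eval u = ∑ i : Fin (e + 1), ((t : ℚ) ^ (i : ℕ)) • ((F.L j l).coeff i * lb ^ (i : ℕ)) := by
        rw [Polynomial.eval_eq_sum_range' (Nat.lt_succ_of_le (F.degL j l)), Finset.sum_range]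
        refine Finset.sum_congr rfl fun i _ => ?_
        rw [hu, mul_pow, Rat.smul_def]
        push_cast
        ring
      rw [h2, Finset.mul_sum]
      refine Submodule.sum_mem _ fun i _ => ?_
      rw [mul_smul_comm]
      exact Submodule.smul_mem _ _ (Submodule.mul_mem_mul (hqV j) (Submodule.subset_span ⟨(j, l, i), rfl⟩))
    set Q : MvPolynomial (Σ _ : Fin 1, Fin m) ℂ := ∑ l : Fin m, MvPolynomial.C (q' l) * MvPolynomial.X ⟨0, l⟩ with hQ
    have hQc : ∀ l, Q.coeff (Finsupp.single ⟨0, l⟩ 1) = q' l := by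
      intro l
      rw [hQ, MvPolynomial.coeff_sum, Finset.sum_eq_single l]
      · rw [MvPolynomial.coeff_C_mul, MvPolynomial.coeff_X, if_pos rfl, mul_one]
      · intro l' _ hl'
        rw [MvPolynomial.coeff_C_mul, MvPolynomial.coeff_X, if_neg, mul_zero]
        intro h2
        have h3 := (Finsupp.single_left_inj one_ne_zero).1 h2
        exact hl' (by simpa using h3)
      · intro h2
        exact absurd (Finset.mem_univ l) h2
    refine ⟨Q, ?_, ?_, ?_, ?_⟩
    · refine MvPolynomial.totalDegree_finsetSum_le fun l _ => ?_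
      refine (MvPolynomial.totalDegree_mul _ _).trans ?_
      rw [MvPolynomial.totalDegree_C, zero_add, MvPolynomial.totalDegree_X]
    · intro s
      rw [hQ, MvPolynomial.coeff_sum]
      refine Submodule.sum_mem _ fun l _ => ?_
      rw [MvPolynomial.coeff_C_mul, MvPolynomial.coeff_X]
      split_ifs
      · rw [mul_one]
        exact hq'V l
      · rw [mul_zero]
        exact Submodule.zero_mem _
    · rw [hQ, map_sum]
      have h2 : ∀ l : Fin m, MvPolynomial.eval (pv (k := 1) (r := fun _ => G.r) (n := fun _ => m) (so fun _ => F.P) (fun _ => G.h)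
          fun i => (tp (fun _ => b) (fun _ => t) i : ℝ)) (MvPolynomial.C (q' l) * MvPolynomial.X ⟨0, l⟩) =
          q' l * valP G.h F.P ((b : ℝ) ^ t) l := by
        intro l
        rw [map_mul, MvPolynomial.eval_C, MvPolynomial.eval_X, pv_eq]
        congr 2
        unfold tp
        push_cast
        rfl
      rw [Finset.sum_congr rfl fun l _ => h2 l]
      have h3 : ∑ l, q' l * valP G.h F.P ((b : ℝ) ^ t) l = q ⬝ᵥ (Lu *ᵥ valP G.h F.P ((b : ℝ) ^ t)) := by
        rw [Matrix.dotProduct_mulVec]
        rfl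
      rw [h3]
      exact hq
    · rintro ⟨R, hRd, ⟨τ, hRτ⟩, hRF⟩
      have hdec := deg_one hRd
      have hind := F.indep (MvPolynomial.uniqueAlgEquiv ℂ (Fin 1) (R.coeff 0))
        (fun j => MvPolynomial.uniqueAlgEquiv ℂ (Fin 1) (R.coeff (Finsupp.single ⟨0, j⟩ 1))) (by
          filter_upwards [eventually_gt_atTop τ] with s hs
          have h2 := hRτ (fun _ => s) (fun _ => hs)
          rw [hdec, MvPolynomial.eval₂_add, MvPolynomial.eval₂_C, MvPolynomial.eval₂_sum] at h2
          simp only [MvPolynomial.eval₂_mul, MvPolynomial.eval₂_C, MvPolynomial.eval₂_X, toP_eval, pv_eq] at h2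
          rw [Fintype.sum_sigma] at h2
          simpa using h2)
      have hR0 : R = 0 := by
        have h2 : R.coeff 0 = 0 := (MvPolynomial.uniqueAlgEquiv ℂ (Fin 1)).injective (hind.1.trans (map_zero _).symm)
        rw [hdec, h2, map_zero, zero_add]
        refine Finset.sum_eq_zero fun v _ => ?_
        obtain ⟨i, j⟩ := v
        have hi : i = 0 := Subsingleton.elim _ _
        subst hi
        have h3 : R.coeff (Finsupp.single ⟨0, j⟩ 1) = 0 :=
          (MvPolynomial.uniqueAlgEquiv ℂ (Fin 1)).injective ((hind.2 j).trans (map_zero _).symm)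
        rw [h3, map_zero, zero_mul]
      rw [hR0, map_zero] at hRF
      apply hq'0
      funext l
      rw [← hQc l, ← hRF, MvPolynomial.coeff_zero]
      rfl)
  have hcard : ((hfin.toFinset).image fun t => fun _ : Fin 1 => t).card = S.ncard := by
    rw [Finset.card_image_of_injective _ (fun x y h => congrFun h 0), Set.ncard_eq_toFinset_card S hfin]
  rw [hcard, pow_one] at h1
  have hN0 : (0 : ℝ) < N := by
    have : 0 < N := by omega
    exact_mod_cast this
  have h2 : ((S.ncard : ℕ) : ℝ) * N ≤ (C * Real.log N) * N := by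
    calc ((S.ncard : ℕ) : ℝ) * N ≤ C * N * Real.log N := h1
      _ = _ := by ring
  exact le_of_mul_le_mul_right h2 hN0

end Pool.Agent.X120.NF
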