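import Pool.Agent.X120.NF.Aj
import Pool.Agent.X120.BM.Mt
import Pool.Agent.X120.BM.Lev

/-!
# The Lie algebra of the Mumford–Tate group of extensions
-/

set_option autoImplicit false
set_option linter.unusedSectionVars false

open Matrix

namespace Pool.Agent.X120.NF

open Pool.Agent.X120.BM
open Pool.Agent.X120.HG (IsSp sp_symm mu mu_sp sp_perfect)

section lin
variable {n : ℕ}

theorem castMat_mulVec {A : Matrix (Fin n) (Fin n) ℚ} (hAd : A.det ≠ 0) {y : Fin n → ℚ} (h : y ᵥ* A = 0) : y = 0 := by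
  by_contra hy
  exact hAd (Matrix.exists_vecMul_eq_zero_iff.1 ⟨y, hy, h⟩)

/-- a vector which is killed by the symplectic Lie algebra -/
theorem vec_zero {A : Matrix (Fin n) (Fin n) ℚ} (hA : Aᵀ = -A) (hAd : A.det ≠ 0) {v : Fin n → ℚ}
    (h : ∀ S, IsSp A S → v ᵥ* S = 0) : v = 0 := by
  refine castMat_mulVec hAd ?_
  by_contra hne
  obtain ⟨a, ha⟩ : ∃ a, (v ᵥ* A) a ≠ 0 := by
    by_contra h0
    push Not at h0
    exact hne (funext h0)
  have h1 := h _ (mu_sp hA (Pi.single a 1))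
  unfold mu at h1
  rw [← Matrix.vecMul_vecMul, Matrix.vecMul_vecMulVec, dotProduct_single, mul_one] at h1
  have h2 := congrFun h1 a
  rw [Pi.smul_apply, Pi.single_eq_same, smul_eq_mul, mul_one] at h2
  exact ha h2

/-- the rank one matrices in a space which is stable under the symplectic Lie algebra -/
theorem rank_one {r : ℕ} {A : Matrix (Fin n) (Fin n) ℚ} (hA : Aᵀ = -A) (hAd : A.det ≠ 0)
    {U : Submodule ℚ (Matrix (Fin r) (Fin n) ℚ)} (hU : ∀ ψ ∈ U, ∀ S, IsSp A S → ψ * S ∈ U) {ψ : Matrix (Fin r) (Fin n) ℚ}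
    (hψ : ψ ∈ U) (u z : Fin n → ℚ) : Matrix.vecMulVec (ψ *ᵥ (A *ᵥ u)) z ∈ U := by
  by_cases hu : u = 0
  · subst hu
    rw [Matrix.mulVec_zero, Matrix.mulVec_zero, Matrix.zero_vecMulVec]
    exact U.zero_mem
  obtain ⟨x, hx⟩ : ∃ x : Fin n → ℚ, (u ᵥ* A) ⬝ᵥ x ≠ 0 := by
    by_contra h0
    push Not at h0
    apply hu
    refine castMat_mulVec hAd ?_
    funext a
    have := h0 (Pi.single a 1)
    rwa [dotProduct_single, mul_one] at this
  set y := ψ *ᵥ (A *ᵥ u) with hy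
  have h1 : Matrix.vecMulVec y u ∈ U := by
    have h2 := hU ψ hψ _ (mu_sp hA u)
    unfold mu at h2
    rw [Matrix.mul_vecMulVec, Matrix.mul_vecMulVec] at h2
    exact h2
  have h2 : ∀ z : Fin n → ℚ, ((u ᵥ* A) ⬝ᵥ x) • Matrix.vecMulVec y z + ((u ᵥ* A) ⬝ᵥ z) • Matrix.vecMulVec y x ∈ U := by
    intro z
    have h3 := hU _ h1 (A * (Matrix.vecMulVec x z + Matrix.vecMulVec z x)) (sp_symm hA (by
      rw [Matrix.transpose_add, Matrix.transpose_vecMulVec, Matrix.transpose_vecMulVec, add_comm]))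
    have h4 : Matrix.vecMulVec y u * (A * (Matrix.vecMulVec x z + Matrix.vecMulVec z x)) =
        ((u ᵥ* A) ⬝ᵥ x) • Matrix.vecMulVec y z + ((u ᵥ* A) ⬝ᵥ z) • Matrix.vecMulVec y x := by
      rw [← Matrix.mul_assoc, Matrix.vecMulVec_mul, Matrix.mul_add, Matrix.vecMulVec_mul_vecMulVec, Matrix.vecMulVec_mul_vecMulVec]
      rw [Matrix.vecMulVec_smul, Matrix.vecMulVec_smul]
    rw [h4] at h3
    exact h3
  have h3 : Matrix.vecMulVec y x ∈ U := by
    have h4 := h2 x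
    rw [← add_smul] at h4
    have h5 := U.smul_mem (((u ᵥ* A) ⬝ᵥ x + (u ᵥ* A) ⬝ᵥ x)⁻¹) h4
    rwa [smul_smul, inv_mul_cancel₀ (by
      intro h6
      exact hx (by linarith)), one_smul] at h5
  have h4 := U.sub_mem (h2 z) (U.smul_mem ((u ᵥ* A) ⬝ᵥ z) h3)
  rw [add_sub_cancel_right] at h4
  have h5 := U.smul_mem (((u ᵥ* A) ⬝ᵥ x)⁻¹) h4
  rwa [smul_smul, inv_mul_cancel₀ hx, one_smul] at h5

/-- A space which is stable under the symplectic Lie algebra is everything, or it is killed by a nonzero vector. -/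
theorem burnside {r : ℕ} {A : Matrix (Fin n) (Fin n) ℚ} (hA : Aᵀ = -A) (hAd : A.det ≠ 0)
    {U : Submodule ℚ (Matrix (Fin r) (Fin n) ℚ)} (hU : ∀ ψ ∈ U, ∀ S, IsSp A S → ψ * S ∈ U)
    (hc : ∀ c : Fin r → ℚ, (∀ ψ ∈ U, c ᵥ* ψ = 0) → c = 0) : U = ⊤ := by
  classical
  set T : Submodule ℚ (Fin r → ℚ) := Submodule.span ℚ {y | ∃ ψ ∈ U, ∃ u : Fin n → ℚ, y = ψ *ᵥ (A *ᵥ u)} with hT
  have hTtop : T = ⊤ := by
    by_contra hne
    obtain ⟨f, hf, hTf⟩ := Submodule.exists_le_ker_of_lt_top T (lt_top_iff_ne_top.2 hne)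
    have hfy : ∀ y : Fin r → ℚ, f y = (fun j => f (Pi.single j 1)) ⬝ᵥ y := by
      intro y
      conv_lhs => rw [← Finset.univ_sum_single y, map_sum]
      refine Finset.sum_congr rfl fun i _ => ?_
      have h2 : (Pi.single i (y i) : Fin r → ℚ) = y i • Pi.single i 1 := by
        rw [← Pi.single_smul, smul_eq_mul, mul_one]
      rw [h2, map_smul, smul_eq_mul, mul_comm]
    have h1 := hc (fun j => f (Pi.single j 1)) (fun ψ hψ => by
      refine castMat_mulVec hAd ?_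
      funext a
      have h3 : ψ *ᵥ (A *ᵥ Pi.single a 1) ∈ T := Submodule.subset_span ⟨ψ, hψ, _, rfl⟩
      have h4 := LinearMap.mem_ker.1 (hTf h3)
      rw [hfy, Matrix.dotProduct_mulVec, Matrix.dotProduct_mulVec, dotProduct_single, mul_one] at h4
      exact h4)
    apply hf
    ext j
    have h2 := congrFun h1 j
    simpa using h2
  rw [eq_top_iff]
  rintro ψ -
  have h1 : ∀ y : Fin r → ℚ, ∀ z : Fin n → ℚ, Matrix.vecMulVec y z ∈ U := by
    intro y z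
    have hy : y ∈ T := by rw [hTtop]; exact Submodule.mem_top
    induction hy using Submodule.span_induction with
    | mem x hx =>
      obtain ⟨ψ, hψ, u, rfl⟩ := hx
      exact rank_one hA hAd hU hψ u z
    | zero => rw [Matrix.zero_vecMulVec]; exact U.zero_mem
    | add x y _ _ hx hy => rw [Matrix.add_vecMulVec]; exact U.add_mem hx hy
    | smul c x _ hx => rw [Matrix.smul_vecMulVec]; exact U.smul_mem c hx
  have h2 : ψ = ∑ j, Matrix.vecMulVec (Pi.single j 1) (ψ j) := by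
    ext a b
    rw [Matrix.sum_apply, Finset.sum_eq_single a]
    · rw [Matrix.vecMulVec_apply, Pi.single_eq_same, one_mul]
    · intro j _ hj
      rw [Matrix.vecMulVec_apply, Pi.single_eq_of_ne (Ne.symm hj), zero_mul]
    · intro h
      exact absurd (Finset.mem_univ a) h
  rw [h2]
  exact U.sum_mem fun j _ => h1 _ _

end lin

section core
variable {n₀ k : ℕ} {n r : Fin k → ℕ}

/-- the endomorphisms of `V_0 ⊕ E_1 ⊕ … ⊕ E_k` of a special form -/
abbrev XT (n₀ : ℕ) {k : ℕ} (n r : Fin k → ℕ) : Type :=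
  Matrix (Fin n₀) (Fin n₀) ℚ × (∀ i, Matrix (Fin (r i)) (Fin (n i)) ℚ) × (∀ i, Matrix (Fin (n i)) (Fin (n i)) ℚ)

/-- the bracket -/
def xbr (x y : XT n₀ n r) : XT n₀ n r :=
  (x.1 * y.1 - y.1 * x.1, fun i => x.2.1 i * y.2.2 i - y.2.1 i * x.2.2 i, fun i => x.2.2 i * y.2.2 i - y.2.2 i * x.2.2 i)

/-- the projection, up to scalars -/
def lowP (P : Submodule ℚ (XT n₀ n r)) : Submodule ℚ (Tup n₀ n ℚ) where
  carrier := {Z | ∃ (c : Fin k → ℚ) (ψ : ∀ i, Matrix (Fin (r i)) (Fin (n i)) ℚ), ((Z.1, ψ, fun i => Z.2 i - c i • 1) : XT n₀ n r) ∈ P}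
  add_mem' := by
    rintro a b ⟨c, ψ, h⟩ ⟨c', ψ', h'⟩
    refine ⟨c + c', ψ + ψ', ?_⟩
    have h1 := P.add_mem h h'
    have h2 : ((a.1, ψ, fun i => a.2 i - c i • 1) : XT n₀ n r) + (b.1, ψ', fun i => b.2 i - c' i • 1) =
        ((a + b).1, ψ + ψ', fun i => (a + b).2 i - (c + c') i • 1) := by
      refine Prod.ext rfl (Prod.ext rfl ?_)
      funext i
      show (a.2 i - c i • 1) + (b.2 i - c' i • 1) = (a.2 i + b.2 i) - (c i + c' i) • 1
      rw [add_smul]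
      abel
    rw [h2] at h1
    exact h1
  zero_mem' := ⟨0, 0, by
    have h2 : (((0 : Tup n₀ n ℚ).1, 0, fun i => (0 : Tup n₀ n ℚ).2 i - (0 : Fin k → ℚ) i • 1) : XT n₀ n r) = 0 := by
      refine Prod.ext rfl (Prod.ext rfl ?_)
      funext i
      show (0 : Matrix (Fin (n i)) (Fin (n i)) ℚ) - (0 : ℚ) • 1 = 0
      rw [zero_smul, sub_zero]
    rw [h2]
    exact P.zero_mem⟩
  smul_mem' := by
    rintro q a ⟨c, ψ, h⟩
    refine ⟨q • c, q • ψ, ?_⟩
    have h1 := P.smul_mem q h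
    have h2 : q • ((a.1, ψ, fun i => a.2 i - c i • 1) : XT n₀ n r) =
        ((q • a).1, q • ψ, fun i => (q • a).2 i - (q • c) i • 1) := by
      refine Prod.ext rfl (Prod.ext rfl ?_)
      funext i
      show q • (a.2 i - c i • 1) = q • a.2 i - (q * c i) • 1
      rw [smul_sub, smul_smul]
    rw [h2] at h1
    exact h1

theorem lowP_lie {P : Submodule ℚ (XT n₀ n r)} (hP : ∀ x ∈ P, ∀ y ∈ P, xbr x y ∈ P) : IsLie (lowP P) := by
  rintro a ⟨c, ψ, h⟩ b ⟨c', ψ', h'⟩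
  have h1 := hP _ h _ h'
  refine ⟨0, (xbr ((a.1, ψ, fun i => a.2 i - c i • 1) : XT n₀ n r) (b.1, ψ', fun i => b.2 i - c' i • 1)).2.1, ?_⟩
  · have h2 : xbr ((a.1, ψ, fun i => a.2 i - c i • 1) : XT n₀ n r) (b.1, ψ', fun i => b.2 i - c' i • 1) =
        ((bracket a b).1, (xbr ((a.1, ψ, fun i => a.2 i - c i • 1) : XT n₀ n r) (b.1, ψ', fun i => b.2 i - c' i • 1)).2.1,
          fun i => (bracket a b).2 i - (0 : Fin k → ℚ) i • 1) := by
      refine Prod.ext rfl (Prod.ext rfl ?_)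
      funext i
      show (a.2 i - c i • 1) * (b.2 i - c' i • 1) - (b.2 i - c' i • 1) * (a.2 i - c i • 1) =
        (a.2 i * b.2 i - b.2 i * a.2 i) - (0 : ℚ) • 1
      rw [zero_smul, sub_zero]
      simp only [sub_mul, mul_sub, Matrix.smul_mul, Matrix.mul_smul, Matrix.one_mul, Matrix.mul_one, smul_smul, mul_comm (c' i)]
      abel
    rw [h2] at h1
    exact h1

/-- the part `𝔲_i` -/
def uP (P : Submodule ℚ (XT n₀ n r)) (i : Fin k) : Submodule ℚ (Matrix (Fin (r i)) (Fin (n i)) ℚ) where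
  carrier := {ψ | ((0, Pi.single i ψ, 0) : XT n₀ n r) ∈ P}
  add_mem' := by
    intro a b ha hb
    have h1 := P.add_mem ha hb
    have h2 : ((0, Pi.single i a, 0) : XT n₀ n r) + (0, Pi.single i b, 0) = (0, Pi.single i (a + b), 0) := by
      rw [Pi.single_add]
      refine Prod.ext (add_zero _) (Prod.ext rfl (add_zero _))
    rw [h2] at h1
    exact h1
  zero_mem' := by
    show ((0, Pi.single i 0, 0) : XT n₀ n r) ∈ P
    rw [Pi.single_zero]
    exact P.zero_mem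
  smul_mem' := by
    intro q a ha
    have h1 := P.smul_mem q ha
    have h2 : q • ((0, Pi.single i a, 0) : XT n₀ n r) = (0, Pi.single i (q • a), 0) := by
      rw [Pi.single_smul]
      refine Prod.ext (smul_zero _) (Prod.ext rfl (smul_zero _))
    rw [h2] at h1
    exact h1

/-- the part of `𝔤𝔩(V_i)` -/
def sP (P : Submodule ℚ (XT n₀ n r)) (i : Fin k) : Submodule ℚ (Matrix (Fin (n i)) (Fin (n i)) ℚ) where
  carrier := {Y | ∃ ψ, ((0, ψ, Pi.single i Y) : XT n₀ n r) ∈ P}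
  add_mem' := by
    rintro a b ⟨ψ, ha⟩ ⟨ψ', hb⟩
    have h1 := P.add_mem ha hb
    have h2 : ((0, ψ, Pi.single i a) : XT n₀ n r) + (0, ψ', Pi.single i b) = (0, ψ + ψ', Pi.single i (a + b)) := by
      rw [Pi.single_add]
      refine Prod.ext (add_zero _) rfl
    rw [h2] at h1
    exact ⟨_, h1⟩
  zero_mem' := ⟨0, by
    rw [Pi.single_zero]
    exact P.zero_mem⟩
  smul_mem' := by
    rintro q a ⟨ψ, ha⟩
    have h1 := P.smul_mem q ha
    have h2 : q • ((0, ψ, Pi.single i a) : XT n₀ n r) = (0, q • ψ, Pi.single i (q • a)) := by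
      rw [Pi.single_smul]
      refine Prod.ext (smul_zero _) rfl
    rw [h2] at h1
    exact ⟨_, h1⟩

variable {w : Fin k → ℕ} {A : ∀ i, Matrix (Fin (n i)) (Fin (n i)) ℚ}

theorem sP_sp (hA : ∀ i, (A i)ᵀ = -A i) (hAd : ∀ i, (A i).det ≠ 0) {P : Submodule ℚ (XT n₀ n r)} (hP : ∀ x ∈ P, ∀ y ∈ P, xbr x y ∈ P)
    (hlow : ∀ X : ∀ i, Matrix (Fin (n i)) (Fin (n i)) ℚ, (∀ i, IsSp (A i) (X i)) → ((0, X) : Tup n₀ n ℚ) ∈ lowP P)
    (i : Fin k) {Y : Matrix (Fin (n i)) (Fin (n i)) ℚ} (hY : IsSp (A i) Y) : Y ∈ sP P i := by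
  refine sp_perfect (hA i) (hAd i) (fun X Y hX hY => ?_) hY
  obtain ⟨c, ψ, h⟩ := hlow (sg i X) (sg_sp i X hX)
  obtain ⟨c', ψ', h'⟩ := hlow (sg i Y) (sg_sp i Y hY)
  have h1 := hP _ h _ h'
  refine ⟨(xbr (((0, sg i X) : Tup n₀ n ℚ).1, ψ, fun j => ((0, sg i X) : Tup n₀ n ℚ).2 j - c j • 1)
    (((0, sg i Y) : Tup n₀ n ℚ).1, ψ', fun j => ((0, sg i Y) : Tup n₀ n ℚ).2 j - c' j • 1)).2.1, ?_⟩
  have h2 : xbr (((0, sg i X) : Tup n₀ n ℚ).1, ψ, fun j => ((0, sg i X) : Tup n₀ n ℚ).2 j - c j • 1)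
      (((0, sg i Y) : Tup n₀ n ℚ).1, ψ', fun j => ((0, sg i Y) : Tup n₀ n ℚ).2 j - c' j • 1) =
      (0, (xbr (((0, sg i X) : Tup n₀ n ℚ).1, ψ, fun j => ((0, sg i X) : Tup n₀ n ℚ).2 j - c j • 1)
    (((0, sg i Y) : Tup n₀ n ℚ).1, ψ', fun j => ((0, sg i Y) : Tup n₀ n ℚ).2 j - c' j • 1)).2.1, Pi.single i (X * Y - Y * X)) := by
    refine Prod.ext ?_ (Prod.ext rfl ?_)
    · show (0 : Matrix (Fin n₀) (Fin n₀) ℚ) * 0 - 0 * 0 = 0
      rw [Matrix.mul_zero, sub_zero]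
    · funext j
      show (sg i X j - c j • 1) * (sg i Y j - c' j • 1) - (sg i Y j - c' j • 1) * (sg i X j - c j • 1) = sg i (X * Y - Y * X) j
      rw [← sg_bracket]
      simp only [sub_mul, mul_sub, Matrix.smul_mul, Matrix.mul_smul, Matrix.one_mul, Matrix.mul_one, smul_smul, mul_comm (c' j)]
      abel
  rw [h2] at h1
  exact h1

/-- `𝔲_i` is stable -/
theorem uP_stable (hA : ∀ i, (A i)ᵀ = -A i) (hAd : ∀ i, (A i).det ≠ 0) {P : Submodule ℚ (XT n₀ n r)} (hP : ∀ x ∈ P, ∀ y ∈ P, xbr x y ∈ P)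
    (hlow : ∀ X : ∀ i, Matrix (Fin (n i)) (Fin (n i)) ℚ, (∀ i, IsSp (A i) (X i)) → ((0, X) : Tup n₀ n ℚ) ∈ lowP P)
    (i : Fin k) {ψ : ∀ i, Matrix (Fin (r i)) (Fin (n i)) ℚ} (hψ : ((0, ψ, 0) : XT n₀ n r) ∈ P) {S : Matrix (Fin (n i)) (Fin (n i)) ℚ}
    (hS : IsSp (A i) S) : ψ i * S ∈ uP P i := by
  obtain ⟨ψ', h⟩ := sP_sp hA hAd hP hlow i hS
  have h1 := hP _ hψ _ h
  show ((0, Pi.single i (ψ i * S), 0) : XT n₀ n r) ∈ P
  have h2 : xbr ((0, ψ, 0) : XT n₀ n r) (0, ψ', Pi.single i S) = (0, Pi.single i (ψ i * S), 0) := by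
    refine Prod.ext ?_ (Prod.ext ?_ ?_)
    · show (0 : Matrix (Fin n₀) (Fin n₀) ℚ) * 0 - 0 * 0 = 0
      rw [Matrix.mul_zero, sub_zero]
    · funext j
      show ψ j * (Pi.single i S : ∀ i, Matrix (Fin (n i)) (Fin (n i)) ℚ) j - ψ' j * 0 =
        (Pi.single i (ψ i * S) : ∀ i, Matrix (Fin (r i)) (Fin (n i)) ℚ) j
      rw [Matrix.mul_zero, sub_zero]
      by_cases hj : j = i
      · subst hj
        rw [Pi.single_eq_same, Pi.single_eq_same]
      · rw [Pi.single_eq_of_ne hj, Pi.single_eq_of_ne hj, Matrix.mul_zero]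
    · funext j
      show (0 : Matrix (Fin (n j)) (Fin (n j)) ℚ) * _ - _ * 0 = 0
      rw [Matrix.zero_mul, Matrix.mul_zero, sub_zero]
  rw [h2] at h1
  exact h1

/-- elements with trivial part in `𝔤𝔩(V_i)` -/
theorem uP_zero (hA : ∀ i, (A i)ᵀ = -A i) (hAd : ∀ i, (A i).det ≠ 0) {P : Submodule ℚ (XT n₀ n r)} (hP : ∀ x ∈ P, ∀ y ∈ P, xbr x y ∈ P)
    (hlow : ∀ X : ∀ i, Matrix (Fin (n i)) (Fin (n i)) ℚ, (∀ i, IsSp (A i) (X i)) → ((0, X) : Tup n₀ n ℚ) ∈ lowP P)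
    (i : Fin k) {x : XT n₀ n r} (hx : x ∈ P) (hxi : x.2.2 i = 0) {S S' : Matrix (Fin (n i)) (Fin (n i)) ℚ}
    (hS : IsSp (A i) S) (hS' : IsSp (A i) S') : x.2.1 i * S * S' ∈ uP P i := by
  obtain ⟨ψ', h⟩ := sP_sp hA hAd hP hlow i hS
  have h1 := hP _ hx _ h
  have h2 : xbr x ((0, ψ', Pi.single i S) : XT n₀ n r) = (0, (xbr x ((0, ψ', Pi.single i S) : XT n₀ n r)).2.1, 0) := by
    refine Prod.ext ?_ (Prod.ext rfl ?_)
    · show x.1 * 0 - 0 * x.1 = 0
      rw [Matrix.mul_zero, Matrix.zero_mul, sub_zero]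
    · funext j
      show x.2.2 j * (Pi.single i S : ∀ i, Matrix (Fin (n i)) (Fin (n i)) ℚ) j -
        (Pi.single i S : ∀ i, Matrix (Fin (n i)) (Fin (n i)) ℚ) j * x.2.2 j = 0
      by_cases hj : j = i
      · subst hj
        rw [hxi, Matrix.mul_zero, Matrix.zero_mul, sub_zero]
      · rw [Pi.single_eq_of_ne hj, Matrix.mul_zero, Matrix.zero_mul, sub_zero]
  rw [h2] at h1
  have h3 := uP_stable hA hAd hP hlow i h1 hS'
  have h4 : (xbr x ((0, ψ', Pi.single i S) : XT n₀ n r)).2.1 i = x.2.1 i * S := by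
    show x.2.1 i * (Pi.single i S : ∀ i, Matrix (Fin (n i)) (Fin (n i)) ℚ) i - ψ' i * x.2.2 i = _
    rw [Pi.single_eq_same, hxi, Matrix.mul_zero, sub_zero]
  rw [h4] at h3
  exact h3

variable {H : ∀ i, ℕ → Submodule ℂ (Fin (n i) → ℂ)} {Φ₀ : Matrix (Fin n₀) (Fin n₀) ℂ} {Φ : ∀ i, Matrix (Fin (n i)) (Fin (n i)) ℂ}

theorem map_sub_scalar {m : ℕ} (φ : ℂ →ₗ[ℚ] ℚ) (Z : Matrix (Fin m) (Fin m) ℂ) (a : ℕ) :
    (Z - (a : ℂ) • 1).map φ = Z.map φ - ((a : ℚ) * φ 1) • 1 := by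
  ext i j
  rw [Matrix.map_apply, Matrix.sub_apply, Matrix.sub_apply, Matrix.map_apply, Matrix.smul_apply, Matrix.smul_apply, map_sub]
  congr 1
  by_cases hij : i = j
  · subst hij
    rw [Matrix.one_apply_eq, Matrix.one_apply_eq, smul_eq_mul, smul_eq_mul, mul_one, mul_one]
    have h1 : (a : ℂ) = (a : ℚ) • (1 : ℂ) := by
      rw [Rat.smul_def, mul_one]
      push_cast
      rfl
    rw [h1, map_smul, smul_eq_mul]
  · rw [Matrix.one_apply_ne hij, Matrix.one_apply_ne hij, smul_zero, smul_zero, map_zero]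

/-- **The Lie algebra contains everything.** -/
theorem core {m : Fin k → ℕ} (hm : ∀ i, w i + 1 = 2 * m i) {ω : ∀ i, Fin (n i) → ℂ} {β : ∀ i, Matrix (Fin (r i)) (Fin (n i)) ℂ}
    {P : Submodule ℚ (XT n₀ n r)} (hP : ∀ x ∈ P, ∀ y ∈ P, xbr x y ∈ P)
    (hΦP : ∀ φ : ℂ →ₗ[ℚ] ℚ, ((Φ₀.map φ, fun i => (-(β i * (Φ i - (m i : ℂ) • 1))).map φ,
      fun i => (Φ i - (m i : ℂ) • 1).map φ) : XT n₀ n r) ∈ P)
    (hRG : RelativelyGeneric Φ₀ w A H) (hH : ∀ i, IsHodge (w i) (A i) (H i)) (hop : ∀ i, IsHodgeOperator (w i) (H i) (Φ i))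
    (hω : ∀ i, ω i ∈ H i (w i))
    (hgood : ∀ i, ∀ (c : Fin (r i) → ℚ) (d : Fin (n i) → ℚ),
      ∑ j, (c j : ℂ) * (β i j ⬝ᵥ (toC (A i) *ᵥ ω i)) + ∑ a, (d a : ℂ) * ω i a = 0 → c = 0)
    (ψ : ∀ i, Matrix (Fin (r i)) (Fin (n i)) ℚ) (X : ∀ i, Matrix (Fin (n i)) (Fin (n i)) ℚ) (hX : ∀ i, IsSp (A i) (X i)) :
    ((0, ψ, X) : XT n₀ n r) ∈ P := by
  classical
  have hA : ∀ i, (A i)ᵀ = -A i := fun i => (hH i).alt
  have hAd : ∀ i, (A i).det ≠ 0 := fun i => (hH i).nondeg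
  -- the projection contains the symplectic Lie algebras
  have hlow : ∀ X : ∀ i, Matrix (Fin (n i)) (Fin (n i)) ℚ, (∀ i, IsSp (A i) (X i)) → ((0, X) : Tup n₀ n ℚ) ∈ lowP P := by
    intro X hX
    refine hRG (lowP P) (lowP_lie hP) (fun Φ' hop' => ?_) X hX
    have h1 : Φ' = Φ := funext fun i => op_unique (hH i) (hop i) (hop' i)
    rw [h1]
    refine mem_of_phT fun φ => ⟨fun i => (m i : ℚ) * φ 1, fun i => (-(β i * (Φ i - (m i : ℂ) • 1))).map φ, ?_⟩
    have h2 := hΦP φ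
    have h3 : (fun i => (Φ i - (m i : ℂ) • (1 : Matrix (Fin (n i)) (Fin (n i)) ℂ)).map φ) =
        fun i => (phT φ ((Φ₀, Φ) : Tup n₀ n ℂ)).2 i - ((m i : ℚ) * φ 1) • 1 := funext fun i => map_sub_scalar φ (Φ i) (m i)
    rw [h3] at h2
    exact h2
  have hcast : ∀ i, toC (A i) = (A i).map (algebraMap ℚ ℂ) := by
    intro i
    ext a b
    exact (eq_ratCast (algebraMap ℚ ℂ) _).symm
  have hsim : ∀ i, Φ i * toC (A i) + toC (A i) * (Φ i)ᵀ = (w i : ℂ) • toC (A i) := fun i => (hH i).hs.op (hop i)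
  -- `𝔲_i` is everything
  have hu : ∀ i, uP P i = ⊤ := by
    intro i
    refine burnside (hA i) (hAd i) (fun ψ hψ S hS => ?_) fun c hc => ?_
    · have h1 := uP_stable hA hAd hP hlow i (ψ := Pi.single i ψ) hψ hS
      rw [Pi.single_eq_same] at h1
      exact h1
    -- an element whose part in `𝔤𝔩(V_i)` is one
    obtain ⟨φ₁, hφ₁⟩ := Module.Projective.exists_dual_eq_one ℚ (one_ne_zero (α := ℂ))
    set φ₀ : ℂ →ₗ[ℚ] ℚ := (-2 : ℚ) • φ₁ with hφ₀'
    have hφ₀ : φ₀ 1 = -2 := by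
      rw [hφ₀', LinearMap.smul_apply, hφ₁, smul_eq_mul, mul_one]
    have hZ : IsSp (A i) ((Φ i - (m i : ℂ) • 1).map φ₀ - 1) := by
      unfold IsSp
      have h1 : (Φ i - (m i : ℂ) • 1) * toC (A i) + toC (A i) * (Φ i - (m i : ℂ) • 1)ᵀ = (-1 : ℂ) • toC (A i) := by
        rw [Matrix.sub_mul, Matrix.transpose_sub, Matrix.mul_sub, sub_add_sub_comm, hsim i, Matrix.transpose_smul,
          Matrix.transpose_one, Matrix.smul_mul, Matrix.mul_smul, Matrix.one_mul, Matrix.mul_one, ← add_smul, ← sub_smul]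
        congr 1
        have h2 : ((w i : ℕ) : ℂ) + 1 = 2 * (m i : ℂ) := by exact_mod_cast congrArg (fun x : ℕ => (x : ℂ)) (hm i)
        linear_combination h2
      have h2 := congrArg (fun M : Matrix (Fin (n i)) (Fin (n i)) ℂ => M.map φ₀) h1
      have h3 : ((Φ i - (m i : ℂ) • 1) * toC (A i) + toC (A i) * (Φ i - (m i : ℂ) • 1)ᵀ).map φ₀ =
          (Φ i - (m i : ℂ) • 1).map φ₀ * A i + A i * ((Φ i - (m i : ℂ) • 1).map φ₀)ᵀ := by
        have e1 : A i * ((Φ i - (m i : ℂ) • 1).map φ₀)ᵀ = (toC (A i) * (Φ i - (m i : ℂ) • 1)ᵀ).map φ₀ := by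
          rw [hcast]
          exact (phM_mulL φ₀ _ _).symm
        have e2 : (Φ i - (m i : ℂ) • 1).map φ₀ * A i = ((Φ i - (m i : ℂ) • 1) * toC (A i)).map φ₀ := by
          rw [hcast]
          exact (phM_mulR φ₀ _ _).symm
        rw [e1, e2]
        ext a b
        exact map_add φ₀ _ _
      have h4 : ((-1 : ℂ) • toC (A i)).map φ₀ = (2 : ℚ) • A i := by
        ext a b
        show φ₀ ((-1 : ℂ) * ((A i a b : ℚ) : ℂ)) = 2 * A i a b
        have e1 : (-1 : ℂ) * ((A i a b : ℚ) : ℂ) = (-(A i a b)) • (1 : ℂ) := by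
          rw [Rat.smul_def]
          push_cast
          ring
        rw [e1, map_smul, hφ₀, smul_eq_mul]
        ring
      simp only [h3, h4] at h2
      rw [Matrix.sub_mul, Matrix.transpose_sub, Matrix.mul_sub, sub_add_sub_comm, h2, Matrix.transpose_one, Matrix.one_mul,
        Matrix.mul_one, two_smul, sub_self]
    obtain ⟨ψ', hψ'⟩ := sP_sp hA hAd hP hlow i hZ
    have hx := P.sub_mem (hΦP φ₀) hψ'
    obtain ⟨x, hxP, hxi⟩ : ∃ x ∈ P, x.2.2 i = 1 := by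
      refine ⟨_, hx, ?_⟩
      show (Φ i - (m i : ℂ) • 1).map φ₀ - (Pi.single i _ : ∀ i, Matrix (Fin (n i)) (Fin (n i)) ℚ) i = 1
      rw [Pi.single_eq_same, sub_sub_cancel]
    -- the vector `c` and the elements of `P`
    have hcy : ∀ y ∈ P, c ᵥ* (x.2.1 i * y.2.2 i - y.2.1 i) = 0 := by
      intro y hy
      have hbr := hP x hxP y hy
      have h1 : (xbr x y).2.2 i = 0 := by
        show x.2.2 i * y.2.2 i - y.2.2 i * x.2.2 i = 0
        rw [hxi, Matrix.one_mul, Matrix.mul_one, sub_self]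
      have h2 : (xbr x y).2.1 i = x.2.1 i * y.2.2 i - y.2.1 i := by
        show x.2.1 i * y.2.2 i - y.2.1 i * x.2.2 i = _
        rw [hxi, Matrix.mul_one]
      refine vec_zero (hA i) (hAd i) fun S hS => ?_
      refine vec_zero (hA i) (hAd i) fun S' hS' => ?_
      have h3 := hc _ (uP_zero hA hAd hP hlow i hbr h1 hS hS')
      rw [h2, ← Matrix.vecMul_vecMul, ← Matrix.vecMul_vecMul] at h3
      exact h3
    -- the complex vector
    set Ψ : Matrix (Fin (n i)) (Fin (n i)) ℂ := Φ i - (m i : ℂ) • 1 with hΨ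
    set g : Fin (n i) → ℂ := (fun b => ((c ᵥ* x.2.1 i) b : ℂ)) + (fun j => (c j : ℂ)) ᵥ* β i with hg
    have hgΨ : g ᵥ* Ψ = 0 := by
      funext a
      refine (Module.forall_dual_apply_eq_zero_iff ℚ _).1 fun φ => ?_
      have h1 := congrFun (hcy _ (hΦP φ)) a
      have h2 : φ ((g ᵥ* Ψ) a) = (c ᵥ* (x.2.1 i * Ψ.map φ - (-(β i * Ψ)).map φ)) a := by
        have e1 : (c ᵥ* (x.2.1 i * Ψ.map φ - (-(β i * Ψ)).map φ)) a =
            ((c ᵥ* x.2.1 i) ᵥ* Ψ.map φ) a + (c ᵥ* (β i * Ψ).map φ) a := by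
          have e0 : (-(β i * Ψ)).map φ = -((β i * Ψ).map φ) := by
            ext p q
            exact map_neg φ _
          rw [e0, sub_neg_eq_add, Matrix.vecMul_add, ← Matrix.vecMul_vecMul]
          rfl
        have e2 : (g ᵥ* Ψ) a = ((fun b => ((c ᵥ* x.2.1 i) b : ℂ)) ᵥ* Ψ) a + ((fun j => (c j : ℂ)) ᵥ* (β i * Ψ)) a := by
          rw [hg, Matrix.add_vecMul, ← Matrix.vecMul_vecMul]
          rfl
        have e3 : ∀ {p : ℕ} (y : Fin p → ℚ) (M : Matrix (Fin p) (Fin (n i)) ℂ), φ (((fun b => (y b : ℂ)) ᵥ* M) a) = (y ᵥ* M.map φ) a := by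
          intro p y M
          show φ (∑ b, (y b : ℂ) * M b a) = ∑ b, y b * φ (M b a)
          rw [map_sum]
          refine Finset.sum_congr rfl fun b _ => ?_
          rw [← Rat.smul_def, map_smul, smul_eq_mul]
        rw [e1, e2, map_add, e3, e3]
      rw [h2]
      exact h1
    have hgΦ : g ᵥ* Φ i = (m i : ℂ) • g := by
      have h1 : g ᵥ* Φ i - (m i : ℂ) • g = 0 := by
        rw [← hgΨ, hΨ, Matrix.vecMul_sub, Matrix.vecMul_smul, Matrix.vecMul_one]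
      exact sub_eq_zero.1 h1
    have hωΦ : ω i ᵥ* Φ i = (w i : ℂ) • ω i := hop i (w i) le_rfl (ω i) (hω i)
    have hzero : g ⬝ᵥ (toC (A i) *ᵥ ω i) = 0 := by
      have h1 : g ⬝ᵥ ((Φ i * toC (A i)) *ᵥ ω i) = (m i : ℂ) * (g ⬝ᵥ (toC (A i) *ᵥ ω i)) := by
        rw [← Matrix.mulVec_mulVec, Matrix.dotProduct_mulVec, hgΦ, smul_dotProduct, smul_eq_mul]
      have h2 : (toC (A i) * (Φ i)ᵀ) *ᵥ ω i = (w i : ℂ) • (toC (A i) *ᵥ ω i) := by
        rw [← Matrix.mulVec_mulVec, Matrix.mulVec_transpose, hωΦ, Matrix.mulVec_smul]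
      have h3 := congrArg (fun M => g ⬝ᵥ (M *ᵥ ω i)) (hsim i)
      simp only [Matrix.add_mulVec, dotProduct_add, h1, h2, Matrix.smul_mulVec, dotProduct_smul, smul_eq_mul] at h3
      have h4 : (m i : ℂ) * (g ⬝ᵥ (toC (A i) *ᵥ ω i)) = 0 := by linear_combination h3
      rcases mul_eq_zero.1 h4 with h5 | h5
      · exfalso
        have h6 : m i = 0 := by exact_mod_cast h5
        have := hm i
        omega
      · exact h5
    refine hgood i c ((c ᵥ* x.2.1 i) ᵥ* A i) ?_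
    rw [← hzero, hg, add_dotProduct, add_comm]
    congr 1
    · rw [Matrix.dotProduct_mulVec]
      show _ = ∑ a, ((fun b => ((c ᵥ* x.2.1 i) b : ℂ)) ᵥ* toC (A i)) a * ω i a
      refine Finset.sum_congr rfl fun a _ => ?_
      congr 1
      show ((∑ b, (c ᵥ* x.2.1 i) b * A i b a : ℚ) : ℂ) = ∑ b, ((c ᵥ* x.2.1 i) b : ℂ) * ((A i b a : ℚ) : ℂ)
      push_cast
      rfl
    · rw [← Matrix.dotProduct_mulVec]
      show ∑ j, (c j : ℂ) * _ = ∑ j, (c j : ℂ) * _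
      rfl
  -- the end of the proof
  have h1 : ∀ i, ∃ ψ', ((0, ψ', Pi.single i (X i)) : XT n₀ n r) ∈ P := fun i => sP_sp hA hAd hP hlow i (hX i)
  choose ψ' hψ' using h1
  have h2 := P.sum_mem fun i (_ : i ∈ Finset.univ) => hψ' i
  have h3 := P.sum_mem fun i (_ : i ∈ Finset.univ) =>
    (show ((0, Pi.single i ((ψ - ∑ j, ψ' j) i), 0) : XT n₀ n r) ∈ P from by
      have : (ψ - ∑ j, ψ' j) i ∈ uP P i := by rw [hu i]; exact Submodule.mem_top
      exact this)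
  have h4 := P.add_mem h2 h3
  have h5 : (∑ i, ((0, ψ' i, Pi.single i (X i)) : XT n₀ n r)) + ∑ i, ((0, Pi.single i ((ψ - ∑ j, ψ' j) i), 0) : XT n₀ n r) =
      (0, ψ, X) := by
    refine Prod.ext ?_ (Prod.ext ?_ ?_)
    · rw [Prod.fst_add, Prod.fst_sum, Prod.fst_sum]
      simp
    · rw [Prod.snd_add, Prod.fst_add, Prod.snd_sum, Prod.snd_sum, Prod.fst_sum, Prod.fst_sum]
      show ∑ i, ψ' i + ∑ i, Pi.single i ((ψ - ∑ j, ψ' j) i) = ψ
      rw [Finset.univ_sum_single (ψ - ∑ j, ψ' j), add_sub_cancel]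
    · rw [Prod.snd_add, Prod.snd_add, Prod.snd_sum, Prod.snd_sum, Prod.snd_sum, Prod.snd_sum]
      show ∑ i, Pi.single i (X i) + ∑ i : Fin k, 0 = X
      rw [Finset.univ_sum_single X, Finset.sum_const_zero, add_zero]
  rw [h5] at h4
  exact h4

end core

/-- the matrix of the endomorphism `(c, v) ↦ (0, c ψ + v X)` of `E^r ⊕ E^n` (row vectors) -/
def block {E : Type} [Zero E] {r n : ℕ} (ψ : Matrix (Fin r) (Fin n) E) (X : Matrix (Fin n) (Fin n) E) :
    Matrix (Fin (r + n)) (Fin (r + n)) E :=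
  (Matrix.fromBlocks 0 ψ 0 X).submatrix finSumFinEquiv.symm finSumFinEquiv.symm

section blk
variable {E : Type} [Field E] {r n : ℕ}

theorem block_mul (ψ ψ' : Matrix (Fin r) (Fin n) E) (X X' : Matrix (Fin n) (Fin n) E) :
    block ψ X * block ψ' X' = block (ψ * X') (X * X') := by
  unfold block
  rw [Matrix.submatrix_mul_equiv, Matrix.fromBlocks_multiply]
  simp only [Matrix.zero_mul, Matrix.mul_zero, zero_add, add_zero]

theorem block_sub (ψ ψ' : Matrix (Fin r) (Fin n) E) (X X' : Matrix (Fin n) (Fin n) E) :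
    block ψ X - block ψ' X' = block (ψ - ψ') (X - X') := by
  unfold block
  ext a b
  show Matrix.fromBlocks 0 ψ 0 X (finSumFinEquiv.symm a) (finSumFinEquiv.symm b) -
    Matrix.fromBlocks 0 ψ' 0 X' (finSumFinEquiv.symm a) (finSumFinEquiv.symm b) =
    Matrix.fromBlocks 0 (ψ - ψ') 0 (X - X') (finSumFinEquiv.symm a) (finSumFinEquiv.symm b)
  generalize finSumFinEquiv.symm a = a'
  generalize finSumFinEquiv.symm b = b'
  rcases a' with a' | a' <;> rcases b' with b' | b' <;> simp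

theorem block_add (ψ ψ' : Matrix (Fin r) (Fin n) E) (X X' : Matrix (Fin n) (Fin n) E) :
    block ψ X + block ψ' X' = block (ψ + ψ') (X + X') := by
  unfold block
  ext a b
  show Matrix.fromBlocks 0 ψ 0 X (finSumFinEquiv.symm a) (finSumFinEquiv.symm b) +
    Matrix.fromBlocks 0 ψ' 0 X' (finSumFinEquiv.symm a) (finSumFinEquiv.symm b) =
    Matrix.fromBlocks 0 (ψ + ψ') 0 (X + X') (finSumFinEquiv.symm a) (finSumFinEquiv.symm b)
  generalize finSumFinEquiv.symm a = a'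
  generalize finSumFinEquiv.symm b = b'
  rcases a' with a' | a' <;> rcases b' with b' | b' <;> simp

theorem block_smul (q : E) (ψ : Matrix (Fin r) (Fin n) E) (X : Matrix (Fin n) (Fin n) E) :
    q • block ψ X = block (q • ψ) (q • X) := by
  unfold block
  ext a b
  show q * Matrix.fromBlocks 0 ψ 0 X (finSumFinEquiv.symm a) (finSumFinEquiv.symm b) =
    Matrix.fromBlocks 0 (q • ψ) 0 (q • X) (finSumFinEquiv.symm a) (finSumFinEquiv.symm b)
  generalize finSumFinEquiv.symm a = a'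
  generalize finSumFinEquiv.symm b = b'
  rcases a' with a' | a' <;> rcases b' with b' | b' <;> simp

theorem block_zero : block (0 : Matrix (Fin r) (Fin n) E) (0 : Matrix (Fin n) (Fin n) E) = 0 := by
  unfold block
  rw [Matrix.fromBlocks_zero, Matrix.submatrix_zero]
  rfl

theorem block_map [Algebra ℚ E] (φ : E →ₗ[ℚ] ℚ) (ψ : Matrix (Fin r) (Fin n) E) (X : Matrix (Fin n) (Fin n) E) :
    (block ψ X).map φ = block (ψ.map φ) (X.map φ) := by
  unfold block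
  ext a b
  show φ (Matrix.fromBlocks 0 ψ 0 X (finSumFinEquiv.symm a) (finSumFinEquiv.symm b)) =
    Matrix.fromBlocks 0 (ψ.map φ) 0 (X.map φ) (finSumFinEquiv.symm a) (finSumFinEquiv.symm b)
  generalize finSumFinEquiv.symm a = a'
  generalize finSumFinEquiv.symm b = b'
  rcases a' with a' | a' <;> rcases b' with b' | b' <;> simp

end blk

section final
variable {n₀ k : ℕ} {n r : Fin k → ℕ}

/-- the elements of the special form in `V` -/
def special (V : Submodule ℚ (Tup n₀ (fun i => r i + n i) ℚ)) : Submodule ℚ (XT n₀ n r) where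
  carrier := {x | ((x.1, fun i => block (x.2.1 i) (x.2.2 i)) : Tup n₀ (fun i => r i + n i) ℚ) ∈ V}
  add_mem' := by
    intro a b ha hb
    have h1 := V.add_mem ha hb
    have h2 : ((a.1, fun i => block (a.2.1 i) (a.2.2 i)) : Tup n₀ (fun i => r i + n i) ℚ) + (b.1, fun i => block (b.2.1 i) (b.2.2 i)) =
        ((a + b).1, fun i => block ((a + b).2.1 i) ((a + b).2.2 i)) := by
      refine Prod.ext rfl ?_
      funext i
      exact block_add _ _ _ _
    rw [h2] at h1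
    exact h1
  zero_mem' := by
    have h2 : (((0 : XT n₀ n r).1, fun i => block ((0 : XT n₀ n r).2.1 i) ((0 : XT n₀ n r).2.2 i)) : Tup n₀ (fun i => r i + n i) ℚ) = 0 := by
      refine Prod.ext rfl ?_
      funext i
      exact block_zero
    show (((0 : XT n₀ n r).1, fun i => block ((0 : XT n₀ n r).2.1 i) ((0 : XT n₀ n r).2.2 i)) : Tup n₀ (fun i => r i + n i) ℚ) ∈ V
    rw [h2]
    exact V.zero_mem
  smul_mem' := by
    intro q a ha
    have h1 := V.smul_mem q ha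
    have h2 : q • ((a.1, fun i => block (a.2.1 i) (a.2.2 i)) : Tup n₀ (fun i => r i + n i) ℚ) =
        ((q • a).1, fun i => block ((q • a).2.1 i) ((q • a).2.2 i)) := by
      refine Prod.ext rfl ?_
      funext i
      exact block_smul _ _ _
    rw [h2] at h1
    exact h1

/-- **The Lie algebra of the Mumford–Tate group of `V_0 ⊕ E_1 ⊕ … ⊕ E_k` contains the unipotent radical and the symplectic Lie algebras.** -/
theorem mixed_generic {w m : Fin k → ℕ} {A : ∀ i, Matrix (Fin (n i)) (Fin (n i)) ℚ}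
    {H : ∀ i, ℕ → Submodule ℂ (Fin (n i) → ℂ)} {Φ₀ : Matrix (Fin n₀) (Fin n₀) ℂ} {Φ : ∀ i, Matrix (Fin (n i)) (Fin (n i)) ℂ}
    (hm : ∀ i, w i + 1 = 2 * m i) {ω : ∀ i, Fin (n i) → ℂ} {β : ∀ i, Matrix (Fin (r i)) (Fin (n i)) ℂ}
    {V : Submodule ℚ (Tup n₀ (fun i => r i + n i) ℚ)} (hV : IsLie V)
    (hΦ : ((Φ₀, fun i => block (-(β i * (Φ i - (m i : ℂ) • 1))) (Φ i - (m i : ℂ) • 1)) : Tup n₀ (fun i => r i + n i) ℂ) ∈ extend ℂ V)
    (hRG : RelativelyGeneric Φ₀ w A H) (hH : ∀ i, IsHodge (w i) (A i) (H i)) (hop : ∀ i, IsHodgeOperator (w i) (H i) (Φ i))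
    (hω : ∀ i, ω i ∈ H i (w i))
    (hgood : ∀ i, ∀ (c : Fin (r i) → ℚ) (d : Fin (n i) → ℚ),
      ∑ j, (c j : ℂ) * (β i j ⬝ᵥ (toC (A i) *ᵥ ω i)) + ∑ a, (d a : ℂ) * ω i a = 0 → c = 0)
    (ψ : ∀ i, Matrix (Fin (r i)) (Fin (n i)) ℚ) (X : ∀ i, Matrix (Fin (n i)) (Fin (n i)) ℚ)
    (hX : ∀ i, X i * A i + A i * (X i)ᵀ = 0) :
    ((0, fun i => block (ψ i) (X i)) : Tup n₀ (fun i => r i + n i) ℚ) ∈ V := by
  refine core (P := special V) hm (fun x hx y hy => ?_) (fun φ => ?_) hRG hH hop hω hgood ψ X hX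
  · have h1 := hV _ hx _ hy
    show ((((xbr x y).1, fun i => block ((xbr x y).2.1 i) ((xbr x y).2.2 i))) : Tup n₀ (fun i => r i + n i) ℚ) ∈ V
    have h2 : bracket ((x.1, fun i => block (x.2.1 i) (x.2.2 i)) : Tup n₀ (fun i => r i + n i) ℚ)
        (y.1, fun i => block (y.2.1 i) (y.2.2 i)) = ((xbr x y).1, fun i => block ((xbr x y).2.1 i) ((xbr x y).2.2 i)) := by
      refine Prod.ext rfl ?_
      funext i
      show block _ _ * block _ _ - block _ _ * block _ _ = block _ _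
      rw [block_mul, block_mul, block_sub]
      rfl
    rw [h2] at h1
    exact h1
  · have h1 := phT_mem hΦ φ
    have h2 : phT φ ((Φ₀, fun i => block (-(β i * (Φ i - (m i : ℂ) • 1))) (Φ i - (m i : ℂ) • 1)) : Tup n₀ (fun i => r i + n i) ℂ) =
        (Φ₀.map φ, fun i => block ((-(β i * (Φ i - (m i : ℂ) • 1))).map φ) ((Φ i - (m i : ℂ) • 1).map φ)) := by
      refine Prod.ext rfl ?_
      funext i
      exact block_map φ _ _
    rw [h2] at h1
    exact h1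

end final

end Pool.Agent.X120.NF
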