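import Pool.Agent.X120.NF.Aj

/-!
# Extensions of `ℚ(0)` by tensor products of mixed Hodge structures
-/

set_option autoImplicit false

open Matrix

namespace Pool.Agent.X120.NF

open Pool.Agent.X120.BM

section
variable {n n₀ : ℕ}

/-- The Hodge filtration `F^m` of the tensor product of the spaces `V` and `V₀` with the Hodge filtrations `Fil`, `Fil₀`: the sum of the `F^p V ⊗ F^(m-p) V₀` (the elements are
matrices, `f ⊗ g = f gᵀ`). -/
noncomputable def mixedFiltration (Fil : ℤ → Submodule ℂ (Fin n → ℂ)) (Fil₀ : ℤ → Submodule ℂ (Fin n₀ → ℂ)) (m : ℤ) :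
    Submodule ℂ (Matrix (Fin n) (Fin n₀) ℂ) :=
  Submodule.span ℂ {M | ∃ p : ℤ, ∃ f ∈ Fil p, ∃ g ∈ Fil₀ (m - p), M = Matrix.vecMulVec f g}

/-- the rational elements of `W ⊗ ℂ`, for a subspace `W` of `V ⊗ V₀` -/
noncomputable def rationalElements (W : Submodule ℚ (Matrix (Fin n) (Fin n₀) ℚ)) : Submodule ℚ (Matrix (Fin n) (Fin n₀) ℂ) :=
  Submodule.span ℚ ((fun M => M.map fun x : ℚ => (x : ℂ)) '' (W : Set (Matrix (Fin n) (Fin n₀) ℚ)))

/-- `W ⊗ ℂ` -/
noncomputable def complexElements (W : Submodule ℚ (Matrix (Fin n) (Fin n₀) ℚ)) : Submodule ℂ (Matrix (Fin n) (Fin n₀) ℂ) :=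
  Submodule.span ℂ ((fun M => M.map fun x : ℚ => (x : ℂ)) '' (W : Set (Matrix (Fin n) (Fin n₀) ℚ)))

/-- `Ext^1(ℚ(0), H) = W_0 H_ℂ / (W_0 H_ℚ + F^0 W_0 H_ℂ)` (Carlson) for `H = V ⊗ V₀ (m)`, where `W` is the subspace `W_0` -/
noncomputable abbrev Extensions (W : Submodule ℚ (Matrix (Fin n) (Fin n₀) ℚ)) (Fil : ℤ → Submodule ℂ (Fin n → ℂ))
    (Fil₀ : ℤ → Submodule ℂ (Fin n₀ → ℂ)) (m : ℤ) : Type :=
  ((complexElements W).restrictScalars ℚ) ⧸
    ((rationalElements W ⊔ (mixedFiltration Fil Fil₀ m ⊓ complexElements W).restrictScalars ℚ).submoduleOf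
      ((complexElements W).restrictScalars ℚ))

/-- the pairing of `a` in `V ⊗ V₀` with `ω ⊗ η`, `ω` and `η` in the dual spaces -/
noncomputable def dualPair (ω : Fin n → ℂ) (η : Fin n₀ → ℂ) (a : Matrix (Fin n) (Fin n₀) ℂ) : ℂ :=
  dotProduct ω (Matrix.mulVec a η)

theorem dualPair_add (ω : Fin n → ℂ) (η : Fin n₀ → ℂ) (a a' : Matrix (Fin n) (Fin n₀) ℂ) :
    dualPair ω η (a + a') = dualPair ω η a + dualPair ω η a' := by
  unfold dualPair
  rw [Matrix.add_mulVec, dotProduct_add]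

theorem dualPair_smul (ω : Fin n → ℂ) (η : Fin n₀ → ℂ) (c : ℂ) (a : Matrix (Fin n) (Fin n₀) ℂ) :
    dualPair ω η (c • a) = c * dualPair ω η a := by
  unfold dualPair
  rw [Matrix.smul_mulVec, dotProduct_smul, smul_eq_mul]

theorem dualPair_zero (ω : Fin n → ℂ) (η : Fin n₀ → ℂ) : dualPair ω η 0 = 0 := by
  unfold dualPair
  rw [Matrix.zero_mulVec, dotProduct_zero]

theorem dualPair_sum (ω : Fin n → ℂ) (η : Fin n₀ → ℂ) {ι : Type} (s : Finset ι) (a : ι → Matrix (Fin n) (Fin n₀) ℂ) :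
    dualPair ω η (∑ i ∈ s, a i) = ∑ i ∈ s, dualPair ω η (a i) := by
  classical
  induction s using Finset.induction_on with
  | empty => rw [Finset.sum_empty, Finset.sum_empty, dualPair_zero]
  | insert i s hi ih => rw [Finset.sum_insert hi, Finset.sum_insert hi, dualPair_add, ih]

theorem dualPair_fil {Fil : ℤ → Submodule ℂ (Fin n → ℂ)} {Fil₀ : ℤ → Submodule ℂ (Fin n₀ → ℂ)} (hF : Antitone Fil) (hF₀ : Antitone Fil₀)
    {m q₁ q₂ : ℤ} (hm : q₁ + q₂ ≤ m + 1) {ω : Fin n → ℂ} (hω : ∀ f ∈ Fil q₁, dotProduct f ω = 0) {η : Fin n₀ → ℂ}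
    (hη : ∀ g ∈ Fil₀ q₂, dotProduct g η = 0) {M : Matrix (Fin n) (Fin n₀) ℂ} (hM : M ∈ mixedFiltration Fil Fil₀ m) :
    dualPair ω η M = 0 := by
  unfold mixedFiltration at hM
  induction hM using Submodule.span_induction with
  | mem x hx =>
    obtain ⟨p, f, hf, g, hg, rfl⟩ := hx
    have h1 : dualPair ω η (Matrix.vecMulVec f g) = dotProduct f ω * dotProduct g η := by
      unfold dualPair
      rw [Matrix.vecMulVec_mulVec]
      simp only [dotProduct, MulOpposite.smul_eq_mul_unop, MulOpposite.unop_op, Pi.smul_apply]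
      rw [Finset.sum_mul]
      exact Finset.sum_congr rfl fun i _ => by ring
    rw [h1]
    by_cases h2 : q₁ ≤ p
    · rw [hω f (hF h2 hf), zero_mul]
    · rw [hη g (hF₀ (show q₂ ≤ m - p by omega) hg), mul_zero]
  | zero => exact dualPair_zero _ _
  | add x y _ _ hx hy => rw [dualPair_add, hx, hy, add_zero]
  | smul c x _ hx => rw [dualPair_smul, hx, mul_zero]

theorem dualPair_rat (ω : Fin n → ℂ) (η : Fin n₀ → ℂ) {V₀ : Submodule ℚ ℂ} (hV : ∀ c, η c ∈ V₀)
    {W : Submodule ℚ (Matrix (Fin n) (Fin n₀) ℚ)} {M : Matrix (Fin n) (Fin n₀) ℂ} (hM : M ∈ rationalElements W) :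
    ∃ x : Fin n → ℂ, (∀ a, x a ∈ V₀) ∧ dualPair ω η M = ∑ a, x a * ω a := by
  unfold rationalElements at hM
  induction hM using Submodule.span_induction with
  | mem x hx =>
    obtain ⟨M, _, rfl⟩ := hx
    refine ⟨(M.map fun x : ℚ => (x : ℂ)) *ᵥ η, mulVec_mem hV, ?_⟩
    unfold dualPair
    rw [dotProduct_comm]
    rfl
  | zero => exact ⟨0, fun a => Submodule.zero_mem _, by rw [dualPair_zero]; simp⟩
  | add x y _ _ hx hy =>
    obtain ⟨u, hu, h1⟩ := hx
    obtain ⟨v, hv, h2⟩ := hy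
    refine ⟨u + v, fun a => Submodule.add_mem _ (hu a) (hv a), ?_⟩
    rw [dualPair_add, h1, h2, ← Finset.sum_add_distrib]
    exact Finset.sum_congr rfl fun a _ => (add_mul _ _ _).symm
  | smul q x _ hx =>
    obtain ⟨u, hu, h1⟩ := hx
    refine ⟨q • u, fun a => Submodule.smul_mem _ _ (hu a), ?_⟩
    have h2 : q • x = ((q : ℚ) : ℂ) • x := by
      ext i j
      rw [Matrix.smul_apply, Matrix.smul_apply, Rat.smul_def, smul_eq_mul]
    rw [h2, dualPair_smul, h1, Finset.mul_sum]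
    refine Finset.sum_congr rfl fun a _ => ?_
    rw [Pi.smul_apply, Rat.smul_def]
    ring

/-- **Linear independence in the group of extensions.** -/
theorem ext_indep {r : ℕ} {W : Submodule ℚ (Matrix (Fin n) (Fin n₀) ℚ)} {Fil : ℤ → Submodule ℂ (Fin n → ℂ)}
    {Fil₀ : ℤ → Submodule ℂ (Fin n₀ → ℂ)} (hF : Antitone Fil) (hF₀ : Antitone Fil₀) {m q₁ q₂ : ℤ} (hm : q₁ + q₂ ≤ m + 1)
    {v : Fin (r + n) → ℂ} (hω : ∀ f ∈ Fil q₁, dotProduct f (periods v) = 0) {η : Fin n₀ → ℂ} (hη : ∀ g ∈ Fil₀ q₂, dotProduct g η = 0)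
    {V₀ : Submodule ℚ ℂ} (h1 : (1 : ℂ) ∈ V₀) (hV : ∀ c, η c ∈ V₀)
    (hgood : ∀ q : Fin (r + n) → ℂ, (∀ j, q j ∈ V₀) → ∑ j, q j * v j = 0 → q = 0)
    (a : Fin r → (complexElements W).restrictScalars ℚ)
    (ha : ∀ j, dualPair (periods v) η (a j : Matrix (Fin n) (Fin n₀) ℂ) = v (Fin.castAdd n j)) :
    LinearIndependent ℚ fun j => (Submodule.Quotient.mk (a j) : Extensions W Fil Fil₀ m) := by
  rw [Fintype.linearIndependent_iff]
  intro c hc
  have h2 : ∑ j, c j • a j ∈ ((rationalElements W ⊔ (mixedFiltration Fil Fil₀ m ⊓ complexElements W).restrictScalars ℚ).submoduleOf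
      ((complexElements W).restrictScalars ℚ)) := by
    rw [← Submodule.Quotient.mk_eq_zero, ← hc]
    rw [← Submodule.mkQ_apply, map_sum]
    rfl
  have h2' : ((∑ j, c j • a j : (complexElements W).restrictScalars ℚ) : Matrix (Fin n) (Fin n₀) ℂ) ∈
      rationalElements W ⊔ (mixedFiltration Fil Fil₀ m ⊓ complexElements W).restrictScalars ℚ := h2
  obtain ⟨M, hM, f, hf, hfM⟩ := Submodule.mem_sup.1 h2'
  obtain ⟨x, hx, hxM⟩ := dualPair_rat (periods v) η hV hM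
  have h3 : dualPair (periods v) η ((∑ j, c j • a j : (complexElements W).restrictScalars ℚ) : Matrix (Fin n) (Fin n₀) ℂ) =
      ∑ j, (c j : ℂ) * v (Fin.castAdd n j) := by
    rw [Submodule.coe_sum, dualPair_sum]
    refine Finset.sum_congr rfl fun j _ => ?_
    have h4 : ((c j • a j : (complexElements W).restrictScalars ℚ) : Matrix (Fin n) (Fin n₀) ℂ) =
        ((c j : ℚ) : ℂ) • (a j : Matrix (Fin n) (Fin n₀) ℂ) := by
      ext i l
      rw [Submodule.coe_smul, Matrix.smul_apply, Matrix.smul_apply, Rat.smul_def, smul_eq_mul]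
    rw [h4, dualPair_smul, ha j]
  rw [← hfM, dualPair_add, dualPair_fil hF hF₀ hm hω hη hf.1, add_zero, hxM] at h3
  have h5 := hgood (Fin.addCases (fun j => ((c j : ℚ) : ℂ)) fun i => -x i) (fun j => by
    refine Fin.addCases (fun j => ?_) (fun i => ?_) j
    · rw [Fin.addCases_left]
      have := V₀.smul_mem (c j) h1
      rwa [Rat.smul_def, mul_one] at this
    · rw [Fin.addCases_right]
      exact V₀.neg_mem (hx i)) (by
    rw [Fin.sum_univ_add]
    simp only [Fin.addCases_left, Fin.addCases_right]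
    rw [← h3, ← Finset.sum_add_distrib]
    refine Finset.sum_eq_zero fun i _ => ?_
    unfold periods
    ring)
  intro j
  have h6 := congrFun h5 (Fin.castAdd n j)
  rw [Fin.addCases_left, Pi.zero_apply] at h6
  exact_mod_cast h6

/-- **Hodge classes.** A rational element of `F^m` is annihilated by `η`. -/
theorem hodge_classes {r : ℕ} {Fil : ℤ → Submodule ℂ (Fin n → ℂ)} {Fil₀ : ℤ → Submodule ℂ (Fin n₀ → ℂ)} (hF : Antitone Fil)
    (hF₀ : Antitone Fil₀) {m q₁ q₂ : ℤ} (hm : q₁ + q₂ ≤ m + 1)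
    {v : Fin (r + n) → ℂ} (hω : ∀ f ∈ Fil q₁, dotProduct f (periods v) = 0) {η : Fin n₀ → ℂ} (hη : ∀ g ∈ Fil₀ q₂, dotProduct g η = 0)
    {V₀ : Submodule ℚ ℂ} (hV : ∀ c, η c ∈ V₀)
    (hgood : ∀ q : Fin (r + n) → ℂ, (∀ j, q j ∈ V₀) → ∑ j, q j * v j = 0 → q = 0)
    {M : Matrix (Fin n) (Fin n₀) ℚ} (hM : (M.map fun x : ℚ => (x : ℂ)) ∈ mixedFiltration Fil Fil₀ m) :
    (M.map fun x : ℚ => (x : ℂ)) *ᵥ η = 0 := by
  have h1 := dualPair_fil hF hF₀ hm hω hη hM
  have h2 := hgood (Fin.addCases (fun _ => 0) ((M.map fun x : ℚ => (x : ℂ)) *ᵥ η)) (fun j => by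
    refine Fin.addCases (fun j => ?_) (fun i => ?_) j
    · rw [Fin.addCases_left]
      exact V₀.zero_mem
    · rw [Fin.addCases_right]
      exact mulVec_mem hV i) (by
    rw [Fin.sum_univ_add]
    simp only [Fin.addCases_left, Fin.addCases_right, zero_mul, Finset.sum_const_zero, zero_add]
    rw [← h1]
    unfold dualPair periods
    rw [dotProduct_comm]
    rfl)
  funext i
  have h3 := congrFun h2 (Fin.natAdd r i)
  rw [Fin.addCases_right] at h3
  exact h3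

end

end Pool.Agent.X120.NF
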