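import Pool.Agent.X120.NF.Mix

/-!
# Sub-Hodge structures of small level in the tensor product
-/

set_option autoImplicit false

open Matrix

namespace Pool.Agent.X120.NF

open Pool.Agent.X120.BM

section
variable {n n₀ : ℕ}

/-- `F^m` is orthogonal to `ω ⊗ η` -/
theorem pair_fil' {w w₀ p₁ p₂ m : ℕ} (hm : w + w₀ < m + p₁ + p₂) {A : Matrix (Fin n) (Fin n) ℚ} {A₀ : Matrix (Fin n₀) (Fin n₀) ℚ}
    {H : ℕ → Submodule ℂ (Fin n → ℂ)} {H₀ : ℕ → Submodule ℂ (Fin n₀ → ℂ)} (hH : IsPolarized w A H) (hH₀ : IsPolarized w₀ A₀ H₀)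
    {ω : Fin n → ℂ} (hω : ω ∈ filtration w H p₁) {η : Fin n₀ → ℂ} (hη : η ∈ filtration w₀ H₀ p₂)
    {f : Matrix (Fin n) (Fin n₀) ℂ} (hf : f ∈ tensorFiltration w w₀ H H₀ m) : pair A A₀ ω η f = 0 := by
  have key : ∀ {m w p₁ : ℕ} {A : Matrix (Fin m) (Fin m) ℚ} {H : ℕ → Submodule ℂ (Fin m → ℂ)} (_ : IsPolarized w A H)
      {ω : Fin m → ℂ} (_ : ω ∈ filtration w H p₁) {p : ℕ} (_ : p ≤ w) (_ : w < p + p₁) {v : Fin m → ℂ} (_ : v ∈ H p),
      dotProduct v (Matrix.mulVec (toC A) ω) = 0 := by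
    intro m w p₁ A H hH ω hω p hp hlt v hv
    unfold filtration at hω
    induction hω using Submodule.iSup_induction' with
    | mem r x hx => exact hH.orth p hp r r.2.2 (by have := r.2.1; omega) v hv x hx
    | zero => rw [Matrix.mulVec_zero, dotProduct_zero]
    | add x y _ _ hx hy => rw [Matrix.mulVec_add, dotProduct_add, hx, hy, add_zero]
  unfold tensorFiltration at hf
  induction hf using Submodule.span_induction with
  | mem x hx =>
    obtain ⟨p, hp, p₀, hp₀, hpp, f, hf, g, hg, rfl⟩ := hx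
    have h1 : pair A A₀ ω η (Matrix.vecMulVec f g) =
        dotProduct f (Matrix.mulVec (toC A) ω) * dotProduct g (Matrix.mulVec (toC A₀) η) := by
      unfold pair
      rw [Matrix.vecMulVec_mulVec]
      simp only [dotProduct, MulOpposite.smul_eq_mul_unop, MulOpposite.unop_op, Pi.smul_apply]
      rw [Finset.sum_mul]
      exact Finset.sum_congr rfl fun i _ => by ring
    rw [h1]
    by_cases h2 : w < p + p₁
    · rw [key hH hω hp h2 hf, zero_mul]
    · rw [key hH₀ hη hp₀ (by omega) hg, mul_zero]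
  | zero =>
    unfold pair
    rw [Matrix.zero_mulVec, dotProduct_zero]
  | add x y _ _ hx hy => rw [pair_add, hx, hy, add_zero]
  | smul c x _ hx => rw [pair_smul, hx, mul_zero]

/-- `A⊤ M A₀ η` for a rational matrix `M` in `F^c` is zero -/
theorem rational_kill {r w w₀ p₁ p₃ c : ℕ} (hm : w + w₀ < c + p₁ + p₃) {A : Matrix (Fin n) (Fin n) ℚ} {A₀ : Matrix (Fin n₀) (Fin n₀) ℚ}
    {H : ℕ → Submodule ℂ (Fin n → ℂ)} {H₀ : ℕ → Submodule ℂ (Fin n₀ → ℂ)} (hH : IsPolarized w A H) (hH₀ : IsPolarized w₀ A₀ H₀)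
    {v : Fin (r + n) → ℂ} (hω : periods v ∈ filtration w H p₁) {η : Fin n₀ → ℂ} (hη : η ∈ filtration w₀ H₀ p₃)
    {V₀ : Submodule ℚ ℂ} (hV : ∀ c, η c ∈ V₀)
    (hgood : ∀ q : Fin (r + n) → ℂ, (∀ j, q j ∈ V₀) → ∑ j, q j * v j = 0 → q = 0)
    {M : Matrix (Fin n) (Fin n₀) ℚ} (hM : (M.map fun x : ℚ => (x : ℂ)) ∈ tensorFiltration w w₀ H H₀ c) :
    (M.map fun x : ℚ => (x : ℂ)) *ᵥ (toC A₀ *ᵥ η) = 0 := by
  have h1 := pair_fil' hm hH hH₀ hω hη hM
  set y : Fin n → ℂ := (A.transpose.map fun x : ℚ => (x : ℂ)) *ᵥ ((M.map fun x : ℚ => (x : ℂ)) *ᵥ (toC A₀ *ᵥ η)) with hy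
  have hyV : ∀ a, y a ∈ V₀ := mulVec_mem (mulVec_mem (mulVec_mem hV))
  have h2 := hgood (Fin.addCases (fun _ => 0) y) (fun j => by
    refine Fin.addCases (fun j => ?_) (fun i => ?_) j
    · rw [Fin.addCases_left]
      exact V₀.zero_mem
    · rw [Fin.addCases_right]
      exact hyV i) (by
    rw [Fin.sum_univ_add]
    simp only [Fin.addCases_left, Fin.addCases_right, zero_mul, Finset.sum_const_zero, zero_add]
    rw [← h1]
    show dotProduct y (periods v) = _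
    rw [hy]
    unfold pair
    rw [dotProduct_comm (toC A *ᵥ periods v), Matrix.dotProduct_mulVec, ← Matrix.mulVec_transpose]
    rfl)
  have h3 : y = 0 := by
    funext i
    have h3 := congrFun h2 (Fin.natAdd r i)
    rw [Fin.addCases_right] at h3
    exact h3
  have h4 : IsUnit (A.transpose.map fun x : ℚ => (x : ℂ)) := by
    rw [Matrix.isUnit_iff_isUnit_det]
    have h5 : (A.transpose.map fun x : ℚ => (x : ℂ)).det = ((A.det : ℚ) : ℂ) := by
      have h6 := (Rat.castHom ℂ).map_det A.transpose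
      rw [Matrix.det_transpose] at h6
      exact h6.symm
    rw [h5]
    exact isUnit_iff_ne_zero.2 (by exact_mod_cast hH.nondeg)
  obtain ⟨U, hU⟩ := h4
  rw [hy, ← hU] at h3
  have h5 := congrArg (fun x => ((U⁻¹ : (Matrix (Fin n) (Fin n) ℂ)ˣ) : Matrix (Fin n) (Fin n) ℂ) *ᵥ x) h3
  simp only [Matrix.mulVec_mulVec, Matrix.mulVec_zero] at h5
  rw [← Matrix.mul_assoc, ← Matrix.mul_assoc, Units.inv_mul, Matrix.one_mul, ← Matrix.mulVec_mulVec] at h5
  exact h5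

/-- **No rational elements of `F^c`.** -/
theorem rational_zero {r w w₀ p₁ p₃ c : ℕ} (hm : w + w₀ < c + p₁ + p₃) (h2p : 2 * p₃ ≤ w₀ + 1) {A : Matrix (Fin n) (Fin n) ℚ}
    {A₀ : Matrix (Fin n₀) (Fin n₀) ℚ}
    {H : ℕ → Submodule ℂ (Fin n → ℂ)} {H₀ : ℕ → Submodule ℂ (Fin n₀ → ℂ)} (hH : IsPolarized w A H) (hH₀ : IsPolarized w₀ A₀ H₀)
    {v : Fin (r + n) → ℂ} (hω : periods v ∈ filtration w H p₁)
    {V₀ : Submodule ℚ ℂ} {S : Set (Fin n₀ → ℂ)} (hS : filtration w₀ H₀ p₃ ≤ Submodule.span ℂ S) (hSf : ∀ η ∈ S, η ∈ filtration w₀ H₀ p₃)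
    (hV : ∀ η ∈ S, ∀ c, η c ∈ V₀)
    (hgood : ∀ q : Fin (r + n) → ℂ, (∀ j, q j ∈ V₀) → ∑ j, q j * v j = 0 → q = 0)
    {M : Matrix (Fin n) (Fin n₀) ℚ} (hM : (M.map fun x : ℚ => (x : ℂ)) ∈ tensorFiltration w w₀ H H₀ c) : M = 0 := by
  set M' : Matrix (Fin n) (Fin n₀) ℂ := M.map fun x : ℚ => (x : ℂ) with hM'
  have h1 : ∀ η ∈ filtration w₀ H₀ p₃, M' *ᵥ (toC A₀ *ᵥ η) = 0 := by
    intro η hη
    have h2 := hS hη
    induction h2 using Submodule.span_induction with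
    | mem x hx => exact rational_kill hm hH hH₀ hω (hSf x hx) (hV x hx) hgood hM
    | zero => rw [Matrix.mulVec_zero, Matrix.mulVec_zero]
    | add x y hx' hy' hx hy =>
      have hx2 : x ∈ filtration w₀ H₀ p₃ := (Submodule.span_le.2 hSf) hx'
      have hy2 : y ∈ filtration w₀ H₀ p₃ := (Submodule.span_le.2 hSf) hy'
      rw [Matrix.mulVec_add, Matrix.mulVec_add, hx hx2, hy hy2, add_zero]
    | smul a x hx' hx =>
      have hx2 : x ∈ filtration w₀ H₀ p₃ := (Submodule.span_le.2 hSf) hx'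
      rw [Matrix.mulVec_smul, Matrix.mulVec_smul, hx hx2, smul_zero]
  have hconj : ∀ u : Fin n₀ → ℂ, M' *ᵥ (toC A₀ *ᵥ fun i => star (u i)) = fun i => star ((M' *ᵥ (toC A₀ *ᵥ u)) i) := by
    intro u
    have key : ∀ {a b : ℕ} (N : Matrix (Fin a) (Fin b) ℚ) (u : Fin b → ℂ),
        ((N.map fun x : ℚ => (x : ℂ)) *ᵥ fun i => star (u i)) = fun i => star (((N.map fun x : ℚ => (x : ℂ)) *ᵥ u) i) := by
      intro a b N u
      funext i
      show ∑ j, ((N i j : ℚ) : ℂ) * star (u j) = star (∑ j, ((N i j : ℚ) : ℂ) * u j)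
      rw [star_sum]
      refine Finset.sum_congr rfl fun j _ => ?_
      rw [star_mul', star_ratCast]
    unfold toC
    rw [key, hM', key]
  have h2 : ∀ p ≤ w₀, ∀ u ∈ H₀ p, M' *ᵥ (toC A₀ *ᵥ u) = 0 := by
    intro p hp u hu
    by_cases h3 : p₃ ≤ p
    · refine h1 u ?_
      unfold filtration
      exact Submodule.mem_iSup_of_mem (p := fun r : {r : ℕ // p₃ ≤ r ∧ r ≤ w₀} => H₀ r) ⟨p, h3, hp⟩ hu
    · have h4 := hH₀.conj p hp u hu
      have h5 := h1 (fun i => star (u i)) (by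
        unfold filtration
        exact Submodule.mem_iSup_of_mem (p := fun r : {r : ℕ // p₃ ≤ r ∧ r ≤ w₀} => H₀ r) ⟨w₀ - p, by omega, by omega⟩ h4)
      rw [hconj] at h5
      funext i
      have h6 := congrFun h5 i
      simpa using h6
  have h3 : ∀ u : Fin n₀ → ℂ, M' *ᵥ (toC A₀ *ᵥ u) = 0 := by
    intro u
    have h4 : u ∈ (⨆ p : {p : ℕ // p ≤ w₀}, H₀ p) := by rw [hH₀.span]; exact Submodule.mem_top
    induction h4 using Submodule.iSup_induction' with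
    | mem p x hx => exact h2 p p.2 x hx
    | zero => rw [Matrix.mulVec_zero, Matrix.mulVec_zero]
    | add x y _ _ hx hy => rw [Matrix.mulVec_add, Matrix.mulVec_add, hx, hy, add_zero]
  have h4 : M' * toC A₀ = 0 := by
    refine Matrix.ext_of_mulVec_single fun j => ?_
    rw [← Matrix.mulVec_mulVec, h3, Matrix.zero_mulVec]
  have h5 : M * A₀ = 0 := by
    ext i j
    have h6 := congrFun (congrFun h4 i) j
    have h7 : (M' * toC A₀) i j = (((M * A₀) i j : ℚ) : ℂ) := by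
      rw [Matrix.mul_apply, Matrix.mul_apply]
      push_cast
      rfl
    rw [h7] at h6
    rw [Matrix.zero_apply] at h6 ⊢
    exact_mod_cast h6
  have h6 : IsUnit A₀ := by
    rw [Matrix.isUnit_iff_isUnit_det]
    exact isUnit_iff_ne_zero.2 hH₀.nondeg
  obtain ⟨U, hU⟩ := h6
  rw [← hU] at h5
  have h7 := congrArg (fun x => x * ((U⁻¹ : (Matrix (Fin n₀) (Fin n₀) ℚ)ˣ) : Matrix (Fin n₀) (Fin n₀) ℚ)) h5
  simp only [Matrix.mul_assoc, Units.mul_inv, Matrix.mul_one, Matrix.zero_mul] at h7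
  exact h7

/-- **Linear independence in the intermediate Jacobian.** -/
theorem jac_indep' {r w w₀ p₁ p₂ m : ℕ} (hm : w + w₀ < m + p₁ + p₂) {A : Matrix (Fin n) (Fin n) ℚ} {A₀ : Matrix (Fin n₀) (Fin n₀) ℚ}
    {H : ℕ → Submodule ℂ (Fin n → ℂ)} {H₀ : ℕ → Submodule ℂ (Fin n₀ → ℂ)} (hH : IsPolarized w A H) (hH₀ : IsPolarized w₀ A₀ H₀)
    {v : Fin (r + n) → ℂ} (hω : periods v ∈ filtration w H p₁) {η : Fin n₀ → ℂ} (hη : η ∈ filtration w₀ H₀ p₂)
    {V₀ : Submodule ℚ ℂ} (h1 : (1 : ℂ) ∈ V₀) (hV : ∀ c, η c ∈ V₀)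
    (hgood : ∀ q : Fin (r + n) → ℂ, (∀ j, q j ∈ V₀) → ∑ j, q j * v j = 0 → q = 0)
    {a : Fin r → Matrix (Fin n) (Fin n₀) ℂ} (ha : IsRepresented A A₀ v η a) :
    LinearIndependent ℚ fun j => (Submodule.Quotient.mk (a j) : Jacobian w w₀ H H₀ m) := by
  rw [Fintype.linearIndependent_iff]
  intro c hc
  have h2 : ∑ j, c j • a j ∈ ((tensorFiltration w w₀ H H₀ m).restrictScalars ℚ ⊔ rationalPart n n₀) := by
    rw [← Submodule.Quotient.mk_eq_zero, ← hc]
    rw [← Submodule.mkQ_apply, map_sum]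
    rfl
  obtain ⟨f, hf, M, hM, hfM⟩ := Submodule.mem_sup.1 h2
  obtain ⟨x, hx, hxM⟩ := pair_rat (A := A) (A₀ := A₀) (periods v) η hV hM
  have h3 : pair A A₀ (periods v) η (∑ j, c j • a j) = ∑ j, (c j : ℂ) * v (Fin.castAdd n j) := by
    rw [pair_sum]
    refine Finset.sum_congr rfl fun j _ => ?_
    have h4 : c j • a j = ((c j : ℚ) : ℂ) • a j := by
      ext i l
      rw [Matrix.smul_apply, Matrix.smul_apply, Rat.smul_def, smul_eq_mul]
    rw [h4, pair_smul, ha j]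
  rw [← hfM, pair_add, pair_fil' hm hH hH₀ hω hη hf, zero_add, hxM] at h3
  have h5 := hgood (Fin.addCases (fun j => ((c j : ℚ) : ℂ)) fun i => -x i) (fun j => by
    refine Fin.addCases (fun j => ?_) (fun i => ?_) j
    · rw [Fin.addCases_left]
      have := V₀.smul_mem (c j) h1
      rwa [Rat.smul_def, mul_one] at this
    · rw [Fin.addCases_right]
      exact V₀.neg_mem (hx i)) (by
    rw [Fin.sum_univ_add]
    simp only [Fin.addCases_left, Fin.addCases_right]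
    rw [← h3, ← Finset.sum_add_distrib]
    refine Finset.sum_eq_zero fun i _ => ?_
    unfold periods
    ring)
  intro j
  have h6 := congrFun h5 (Fin.castAdd n j)
  rw [Fin.addCases_left, Pi.zero_apply] at h6
  exact_mod_cast h6

end

end Pool.Agent.X120.NF
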